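import Mathlib
import Pool.Agent.W825.FP.Sv
import Pool.Agent.H98R3.OM.A1
import Pool.Agent.H951R4.OD.B6
import Pool.Agent.H951R4.OD.M

set_option autoImplicit false

/-!
# The density statement
-/

namespace Pool.Agent.TH905.PC

open Finset Filter Topology Pool.Agent.H951R4.OD

/-- the sets of density zero -/
def Negl (S : ℕ → Prop) : Prop := ∀ ε : ℝ, 0 < ε → ∀ᶠ X : ℕ in atTop,
  (({n : ℕ | n ≤ X ∧ S n}.ncard : ℕ) : ℝ) ≤ ε * X

theorem Negl.mono {S T : ℕ → Prop} (h : ∀ n, S n → T n) (hT : Negl T) : Negl S := by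
  intro ε hε
  filter_upwards [hT ε hε] with X hX
  refine le_trans ?_ hX
  rw [Nat.cast_le]
  have hfin : {n : ℕ | n ≤ X ∧ T n}.Finite := (Set.finite_Iic X).subset (fun n hn => hn.1)
  exact Set.ncard_le_ncard (fun n (hn : n ≤ X ∧ S n) => (⟨hn.1, h n hn.2⟩ : n ≤ X ∧ T n)) hfin

theorem Negl.or {S T : ℕ → Prop} (hS : Negl S) (hT : Negl T) : Negl (fun n => S n ∨ T n) := by
  intro ε hε
  filter_upwards [hS (ε / 2) (by positivity), hT (ε / 2) (by positivity)] with X h1 h2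
  have h3 : {n : ℕ | n ≤ X ∧ (S n ∨ T n)} ⊆ {n : ℕ | n ≤ X ∧ S n} ∪ {n : ℕ | n ≤ X ∧ T n} := by
    rintro n ⟨hn, h | h⟩
    · exact Or.inl ⟨hn, h⟩
    · exact Or.inr ⟨hn, h⟩
  have hf1 : {n : ℕ | n ≤ X ∧ S n}.Finite := (Set.finite_Iic X).subset (fun n hn => hn.1)
  have hf2 : {n : ℕ | n ≤ X ∧ T n}.Finite := (Set.finite_Iic X).subset (fun n hn => hn.1)
  have h4 := (Set.ncard_le_ncard h3 (hf1.union hf2)).trans (Set.ncard_union_le _ _)
  have h5 : (({n : ℕ | n ≤ X ∧ (S n ∨ T n)}.ncard : ℕ) : ℝ) ≤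
      ({n : ℕ | n ≤ X ∧ S n}.ncard : ℝ) + ({n : ℕ | n ≤ X ∧ T n}.ncard : ℝ) := by
    exact_mod_cast h4
  linarith

theorem negl_false : Negl (fun _ => False) := by
  intro ε hε
  filter_upwards with X
  have : {n : ℕ | n ≤ X ∧ False} = ∅ := by ext n; simp
  rw [this, Set.ncard_empty]
  push_cast
  positivity

theorem negl_finset {ι : Type} (F : Finset ι) (S : ι → ℕ → Prop) (h : ∀ i ∈ F, Negl (S i)) :
    Negl (fun n => ∃ i ∈ F, S i n) := by
  classical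
  induction F using Finset.induction_on with
  | empty => exact negl_false.mono (by simp)
  | insert a F ha ih =>
    refine Negl.mono ?_ ((h a (mem_insert_self _ _)).or (ih fun i hi => h i (mem_insert_of_mem hi)))
    rintro n ⟨i, hi, hS⟩
    rcases mem_insert.1 hi with rfl | hi
    · exact Or.inl hS
    · exact Or.inr ⟨i, hi, hS⟩

theorem dens_class {q : ℕ} [NeZero q] {a : ZMod q} (ha : IsUnit a) :
    Negl (fun n => 1 ≤ n ∧ ∀ p : ℕ, p.Prime → (p : ZMod q) = a → p ∣ n → p ^ 2 ∣ n) := by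
  classical
  intro ε hε
  obtain ⟨C, hC, H⟩ := Pool.Agent.W825.FP.sieveAP
  have hns := Pool.Agent.H98R3.OM.not_summable_class ha
  set g : ℕ → ℝ := fun n : ℕ => if n.Prime ∧ (n : ZMod q) = a then (1 : ℝ) / n else 0 with hg
  have hg0 : ∀ n, 0 ≤ g n := by
    intro n; simp only [hg]; split_ifs <;> positivity
  have ht := (not_summable_iff_tendsto_nat_atTop_of_nonneg hg0).1 hns
  obtain ⟨N0, hN0⟩ := (ht.eventually_ge_atTop (Real.log (C / ε))).exists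
  set z := max N0 3 with hz
  set B : Finset ℕ := (range (z + 1)).filter (fun p : ℕ => p.Prime ∧ (p : ZMod q) = a) with hB
  have hsum : Real.log (C / ε) ≤ ∑ p ∈ B, (1 : ℝ) / p := by
    refine hN0.trans ?_
    rw [hB, sum_filter]
    refine sum_le_sum_of_subset_of_nonneg (range_subset_range.2 (by omega)) fun i _ _ => hg0 i
  have hev : ∀ᶠ X : ℕ in atTop, C * Real.log z * (1 + Real.log (Real.log z)) ≤ Real.log X :=
    (Real.tendsto_log_atTop.comp tendsto_natCast_atTop_atTop).eventually_ge_atTop _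
  filter_upwards [hev] with X hX
  have h1 := H z X (le_max_right _ _) hX 0 1 ∅ B (disjoint_empty_left _) (by simp) (by
    intro p hp
    rw [hB, mem_filter, mem_range] at hp
    exact ⟨hp.2.1, by omega, fun h => hp.2.1.one_lt.ne' (Nat.dvd_one.1 h)⟩)
  rw [sum_empty, zero_add] at h1
  have h2 : (({n : ℕ | n ≤ X ∧ 1 ≤ n ∧ ∀ p : ℕ, p.Prime → (p : ZMod q) = a → p ∣ n → p ^ 2 ∣ n}.ncard
      : ℕ) : ℝ) ≤ C * X * Real.exp (-∑ p ∈ B, (1 : ℝ) / p) := by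
    refine le_trans ?_ h1
    rw [Nat.cast_le, ← Set.ncard_coe_finset]
    apply Set.ncard_le_ncard _ (Finset.finite_toSet _)
    rintro m ⟨hm1, hm2, hm3⟩
    rw [Finset.mem_coe, mem_filter, mem_Icc]
    refine ⟨⟨hm2, hm1⟩, by simp, fun p hp hh => ?_⟩
    rw [hB, mem_filter] at hp
    rw [zero_add, one_mul] at hh
    exact hh.2 (hm3 p hp.2.1 hp.2.2 hh.1)
  refine h2.trans ?_
  have h3 : Real.exp (-∑ p ∈ B, (1 : ℝ) / p) ≤ ε / C := by
    have h4 : Real.exp (-∑ p ∈ B, (1 : ℝ) / p) ≤ Real.exp (-Real.log (C / ε)) :=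
      Real.exp_le_exp.2 (by linarith)
    rw [Real.exp_neg (Real.log (C / ε)), Real.exp_log (by positivity), inv_div] at h4
    exact h4
  calc C * X * Real.exp (-∑ p ∈ B, (1 : ℝ) / p) ≤ C * X * (ε / C) :=
        mul_le_mul_of_nonneg_left h3 (by positivity)
    _ = ε * X := by field_simp

theorem ch_val_of {D : ℤ} {p : ℕ} (hp : p.Prime) (hp2 : p ≠ 2) (hD : ¬ (p : ℤ) ∣ D) :
    ch D p = 1 ∨ ch D p = -1 := by
  have hodd : p % 2 = 1 := hp.eq_two_or_odd.resolve_left hp2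
  unfold ch
  rw [if_pos hodd]
  have hg : D.gcd p = 1 := by
    rw [Int.gcd_comm]
    exact (Int.isCoprime_iff_gcd_eq_one.1
      ((Prime.coprime_iff_not_dvd (Nat.prime_iff_prime_int.1 hp)).2 hD))
  rcases jacobiSym.eq_one_or_neg_one hg with h | h <;> rw [h]
  · left; norm_num
  · right; norm_num

theorem exists_nonres (D : ℤ) (hD : ¬ IsSquare D) (M : ℕ) (hM : M ≠ 0) :
    ∃ p : ℕ, p.Prime ∧ p ≠ 2 ∧ ¬ p ∣ D.natAbs ∧ ¬ p ∣ M ∧ jacobiSym D p = -1 := by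
  by_contra hcon
  push Not at hcon
  obtain ⟨C, hC, H⟩ := char_sum_fixed D hD
  obtain ⟨C', hC', H'⟩ := mert_int
  have hD0 : D ≠ 0 := by rintro rfl; exact hD ⟨0, by norm_num⟩
  set y := 2 * D.natAbs * M with hy
  have hDa : 0 < D.natAbs := Int.natAbs_pos.2 hD0
  have hM0 : 0 < M := Nat.pos_of_ne_zero hM
  have hy2 : 2 ≤ y := by
    have h1 : 1 ≤ D.natAbs * M := Nat.mul_pos hDa hM0
    have h2 : y = 2 * (D.natAbs * M) := by rw [hy]; ring
    omega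
  have hyD : D.natAbs ≤ y := by
    have : y = D.natAbs * (2 * M) := by rw [hy]; ring
    rw [this]
    exact Nat.le_mul_of_pos_right _ (by positivity)
  have hyM : M ≤ y := by
    rw [hy]
    exact Nat.le_mul_of_pos_left _ (by positivity)
  have h1 : ∀ z : ℕ, ∑ q ∈ PI y z, (1 : ℝ) / q = ∑ q ∈ PI y z, ch D q / q := by
    intro z
    refine sum_congr rfl fun p hp => ?_
    unfold PI at hp
    rw [mem_filter, mem_Ioc] at hp
    obtain ⟨⟨hp1, -⟩, hp⟩ := hp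
    have hp2 : p ≠ 2 := by omega
    have hpD : ¬ p ∣ D.natAbs := fun h => by
      have := Nat.le_of_dvd hDa h
      omega
    have hpM : ¬ p ∣ M := fun h => by
      have := Nat.le_of_dvd hM0 h
      omega
    have h2 := hcon p hp hp2 hpD hpM
    rcases ch_val_of hp hp2 (D := D) (fun h => hpD (Int.natCast_dvd.1 h)) with h3 | h3
    · rw [h3]
    · exfalso
      apply h2
      unfold ch at h3
      rw [if_pos (hp.eq_two_or_odd.resolve_left hp2)] at h3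
      exact_mod_cast h3
  have h2 : ∀ z : ℕ, y ≤ z → Real.log (Real.log z / Real.log y) ≤ C + C' := by
    intro z hz
    have h3 := (abs_le.1 (H' y z hy2 hz)).1
    have h4 := (abs_le.1 (H y z)).2
    rw [h1] at h3
    linarith
  have hly : 0 < Real.log y := Real.log_pos (by exact_mod_cast (by omega : 1 < y))
  have ht : Tendsto (fun z : ℕ => Real.log (Real.log z / Real.log y)) atTop atTop := by
    apply Real.tendsto_log_atTop.comp
    apply Tendsto.atTop_div_const hly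
    exact Real.tendsto_log_atTop.comp tendsto_natCast_atTop_atTop
  obtain ⟨z, hz1, hz2⟩ := ((ht.eventually_gt_atTop (C + C')).and (eventually_ge_atTop y)).exists
  exact absurd (h2 z hz2) (not_le.2 hz1)

/-- the arithmetic condition on the order -/
def ArOK (M n : ℕ) : Prop :=
  (∃ p : ℕ, p.Prime ∧ M ∣ p + 1 ∧ p ∣ n ∧ ¬ p ^ 2 ∣ n) ∧
  ∀ D : ℤ, D.natAbs ∣ M → ¬ IsSquare D →
    ∃ p : ℕ, p.Prime ∧ ¬ p ∣ M ∧ p ∣ n ∧ ¬ p ^ 2 ∣ n ∧ ¬ IsSquare ((D : ℤ) : ZMod p)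

theorem negl_D (D : ℤ) (hD : ¬ IsSquare D) (M : ℕ) (hM : M ≠ 0) :
    Negl (fun n => 1 ≤ n ∧ ¬ ∃ p : ℕ, p.Prime ∧ ¬ p ∣ M ∧ p ∣ n ∧ ¬ p ^ 2 ∣ n ∧
      ¬ IsSquare ((D : ℤ) : ZMod p)) := by
  obtain ⟨p0, hp0, hp2, hpD, hpM, hJ⟩ := exists_nonres D hD M hM
  have hD0 : D ≠ 0 := by rintro rfl; exact hD ⟨0, by norm_num⟩
  have hDa : 0 < D.natAbs := Int.natAbs_pos.2 hD0
  have hM0 : 0 < M := Nat.pos_of_ne_zero hM
  set q := 4 * D.natAbs * M with hq
  have hq0 : q ≠ 0 := by positivity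
  have : NeZero q := ⟨hq0⟩
  have hcop : Nat.Coprime p0 q := by
    rw [Nat.Prime.coprime_iff_not_dvd hp0, hq]
    intro h
    rcases (Nat.Prime.dvd_mul hp0).1 h with h | h
    · rcases (Nat.Prime.dvd_mul hp0).1 h with h | h
      · have h4 : p0 ∣ 2 ^ 2 := by simpa using h
        exact hp2 ((Nat.prime_dvd_prime_iff_eq hp0 Nat.prime_two).1 (hp0.dvd_of_dvd_pow h4))
      · exact hpD h
    · exact hpM h
  have hu : IsUnit ((p0 : ℕ) : ZMod q) := (ZMod.isUnit_iff_coprime p0 q).2 hcop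
  refine Negl.mono ?_ (dens_class hu)
  rintro n ⟨hn1, hn2⟩
  refine ⟨hn1, fun p hp hpq hpn => ?_⟩
  by_contra hpn2
  apply hn2
  have hmod : p ≡ p0 [MOD q] := (ZMod.natCast_eq_natCast_iff _ _ _).1 hpq
  have hmodD : p ≡ p0 [MOD 4 * D.natAbs] := hmod.of_dvd (Dvd.intro _ rfl)
  have hmodM : p ≡ p0 [MOD M] := hmod.of_dvd (Dvd.intro_left _ rfl)
  have hmod2 : p ≡ p0 [MOD 2] := hmodD.of_dvd ⟨2 * D.natAbs, by ring⟩
  have hodd0 : Odd p0 := hp0.odd_of_ne_two hp2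
  have hodd : Odd p := by
    rw [Nat.odd_iff] at hodd0 ⊢
    rw [← hodd0]
    exact hmod2
  have hJp : jacobiSym D p = -1 := by
    rw [jacobiSym.mod_right D hodd, hmodD, ← jacobiSym.mod_right D hodd0, hJ]
  refine ⟨p, hp, ?_, hpn, hpn2, ?_⟩
  · intro h
    have h1 : p ∣ p0 := by
      have h2 : p0 ≡ p [MOD p] := (hmodM.of_dvd h).symm
      exact (Nat.modEq_zero_iff_dvd).1 (h2.trans ((Nat.modEq_zero_iff_dvd).2 dvd_rfl))
    rw [Nat.prime_dvd_prime_iff_eq hp hp0] at h1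
    exact hpM (h1 ▸ h)
  · exact ZMod.nonsquare_of_jacobiSym_eq_neg_one hJp

theorem ar_negl (M : ℕ) (hM : M ≠ 0) : Negl (fun n => 1 ≤ n ∧ ¬ ArOK M n) := by
  classical
  have : NeZero M := ⟨hM⟩
  have h1 : Negl (fun n => 1 ≤ n ∧ ∀ p : ℕ, p.Prime → (p : ZMod M) = -1 → p ∣ n → p ^ 2 ∣ n) :=
    dens_class (isUnit_one.neg)
  have h2 : Negl (fun n => ∃ D ∈ (Icc (-(M : ℤ)) M).filter (fun D => ¬ IsSquare D),
      1 ≤ n ∧ ¬ ∃ p : ℕ, p.Prime ∧ ¬ p ∣ M ∧ p ∣ n ∧ ¬ p ^ 2 ∣ n ∧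
      ¬ IsSquare ((D : ℤ) : ZMod p)) :=
    negl_finset _ _ fun D hD => negl_D D (mem_filter.1 hD).2 M hM
  refine Negl.mono ?_ (h1.or h2)
  rintro n ⟨hn1, hn2⟩
  by_cases h : ∃ p : ℕ, p.Prime ∧ M ∣ p + 1 ∧ p ∣ n ∧ ¬ p ^ 2 ∣ n
  · right
    unfold ArOK at hn2
    push Not at hn2
    obtain ⟨D, hD1, hD2, hD3⟩ := hn2 h
    refine ⟨D, ?_, hn1, ?_⟩
    · rw [mem_filter, mem_Icc]
      have h3 := Nat.le_of_dvd (Nat.pos_of_ne_zero hM) hD1
      exact ⟨by omega, hD2⟩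
    · rintro ⟨p, a1, a2, a3, a4, a5⟩
      exact a5 (hD3 p a1 a2 a3 a4)
  · left
    refine ⟨hn1, fun p hp hpa hpn => ?_⟩
    by_contra h3
    apply h
    refine ⟨p, hp, ?_, hpn, h3⟩
    rw [← ZMod.natCast_eq_zero_iff]
    push_cast
    rw [hpa]
    ring

end Pool.Agent.TH905.PC
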