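import Mathlib

set_option autoImplicit false

/-!
# Eigenfunctions of a permutation representation for a linear character
-/

namespace Pool.Agent.TH905.PC

open Finset MulAction

section wt

variable {G : Type} [Group G] {X : Type} [MulAction G X] {R : Type} [CommRing R]

/-- the orbit of a point -/
def cl (G : Type) [Group G] {X : Type} [MulAction G X] (x : X) : orbitRel.Quotient G X :=
  Quotient.mk'' x

theorem cl_eq {x y : X} : cl G x = cl G y ↔ ∃ g : G, g • y = x := by
  unfold cl
  rw [Quotient.eq'']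
  exact Iff.rfl

theorem cl_smul (g : G) (x : X) : cl G (g • x) = cl G x := cl_eq.2 ⟨g, rfl⟩

theorem cl_out (C : orbitRel.Quotient G X) : cl G C.out = C := Quotient.out_eq' C

theorem cl_surj (C : orbitRel.Quotient G X) : ∃ x, cl G x = C := ⟨C.out, cl_out C⟩

theorem exists_tr (x : X) : ∃ g : G, g • (cl G x).out = x := by
  have h := cl_out (cl G x)
  exact cl_eq.1 h.symm

/-- an element which maps the representative of the orbit to the point -/
noncomputable def tr (G : Type) [Group G] {X : Type} [MulAction G X] (x : X) : G :=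
  (exists_tr (G := G) x).choose

theorem tr_spec (x : X) : tr G x • (cl G x).out = x := (exists_tr (G := G) x).choose_spec

/-- orbits whose point stabilizers are contained in `K` -/
def Gd (K : Subgroup G) (C : orbitRel.Quotient G X) : Prop :=
  ∀ x : X, cl G x = C → ∀ g : G, g • x = x → g ∈ K

theorem gd_of {K : Subgroup G} (hK : K.Normal) {C : orbitRel.Quotient G X} {x : X}
    (hx : cl G x = C) (h : ∀ g : G, g • x = x → g ∈ K) : Gd K C := by
  intro y hy g hg
  obtain ⟨k, rfl⟩ := cl_eq.1 (hx.trans hy.symm)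
  have h1 : k * g * k⁻¹ ∈ K := by
    apply h
    rw [mul_smul, mul_smul, inv_smul_smul, hg]
  have h2 := hK.conj_mem _ h1 k⁻¹
  have e : k⁻¹ * (k * g * k⁻¹) * k⁻¹⁻¹ = g := by group
  rwa [e] at h2

/-- the weight of a point -/
noncomputable def wt (χ : G →* Rˣ) (x : X) : R := (χ (tr G x) : R)

theorem wt_unit (χ : G →* Rˣ) (x : X) : IsUnit (wt χ x) := Units.isUnit _

theorem wt_smul (χ : G →* Rˣ) {x : X} (h : Gd χ.ker (cl G x)) (g : G) :
    wt χ (g • x) = (χ g : R) * wt χ x := by
  have h1 : ((tr G (g • x))⁻¹ * (g * tr G x)) • (cl G x).out = (cl G x).out := by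
    rw [mul_smul, mul_smul, tr_spec, inv_smul_eq_iff]
    have h2 := tr_spec (G := G) (g • x)
    rw [cl_smul] at h2
    exact h2.symm
  have h3 := h _ (cl_out _) _ h1
  rw [MonoidHom.mem_ker, map_mul, map_inv, inv_mul_eq_one] at h3
  unfold wt
  rw [h3, map_mul, Units.val_mul]

theorem eig (χ : G →* Rˣ) {f : X → R} (hf : ∀ (g : G) (x : X), f (g • x) = (χ g : R) * f x)
    (x : X) : f x = wt χ x * f (cl G x).out := by
  conv_lhs => rw [← tr_spec (G := G) x]
  rw [hf]
  rfl

theorem eig0 [IsDomain R] (χ : G →* Rˣ) {f : X → R}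
    (hf : ∀ (g : G) (x : X), f (g • x) = (χ g : R) * f x) {x : X} (h : ¬ Gd χ.ker (cl G x)) :
    f x = 0 := by
  by_contra h0
  apply h
  apply gd_of (MonoidHom.normal_ker χ) rfl
  intro g hg
  have h1 := hf g x
  rw [hg] at h1
  have h2 : ((χ g : R) - 1) * f x = 0 := by rw [sub_mul, ← h1, one_mul, sub_self]
  rcases mul_eq_zero.1 h2 with h3 | h3
  · rw [MonoidHom.mem_ker]
    apply Units.ext
    rw [Units.val_one]
    exact sub_eq_zero.1 h3
  · exact absurd h3 h0

variable [Fintype X]

open Classical in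
/-- the size of an orbit -/
noncomputable def sz (C : orbitRel.Quotient G X) : ℕ := (univ.filter (fun x : X => cl G x = C)).card

theorem sz_pos (C : orbitRel.Quotient G X) : 0 < sz C := by
  classical
  unfold sz
  obtain ⟨x, hx⟩ := cl_surj C
  exact card_pos.2 ⟨x, by rw [mem_filter]; exact ⟨mem_univ _, hx⟩⟩

theorem sz_dvd [Finite G] (C : orbitRel.Quotient G X) : sz C ∣ Nat.card G := by
  classical
  obtain ⟨x, rfl⟩ := cl_surj C
  have h1 : sz (cl G x) = Nat.card (orbit G x) := by
    unfold sz
    rw [Nat.card_eq_fintype_card, ← Fintype.card_coe]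
    apply Fintype.card_congr
    refine Equiv.subtypeEquivRight fun y => ?_
    rw [mem_filter, cl_eq]
    constructor
    · rintro ⟨-, g, hg⟩
      exact ⟨g, hg⟩
    · rintro ⟨g, hg⟩
      exact ⟨mem_univ _, g, hg⟩
  have h2 := Nat.card_congr (MulAction.orbitProdStabilizerEquivGroup G x)
  rw [Nat.card_prod] at h2
  rw [h1, ← h2]
  exact dvd_mul_right _ _

open Classical in
theorem sum_inv (F : X → R) (hF : ∀ (g : G) (x : X), F (g • x) = F x) :
    ∑ x, F x = ∑ C : orbitRel.Quotient G X, (sz C : R) * F C.out := by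
  rw [← sum_fiberwise_of_maps_to (g := fun x => cl G x) (t := univ) (fun _ _ => mem_univ _)]
  refine sum_congr rfl fun C _ => ?_
  have h1 : ∀ x ∈ univ.filter (fun x : X => cl G x = C), F x = F C.out := by
    intro x hx
    rw [mem_filter] at hx
    obtain ⟨g, hg⟩ := cl_eq.1 (hx.2.trans (cl_out C).symm)
    rw [← hg, hF]
  rw [sum_congr rfl h1, sum_const, nsmul_eq_mul]
  rfl

/-- the good orbits -/
abbrev Od (K : Subgroup G) (X : Type) [MulAction G X] : Type := {C : orbitRel.Quotient G X // Gd K C}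

noncomputable instance (K : Subgroup G) : Fintype (Od K X) := by
  classical
  exact Fintype.ofFinite _

open Classical in
theorem sum_eig [IsDomain R] {χ : G →* Rˣ} {φ : R →+* R} (hφ : ∀ g : G, φ (χ g : R) * (χ g : R) = 1)
    {f f' : X → R} (hf : ∀ (g : G) (x : X), f (g • x) = (χ g : R) * f x)
    (hf' : ∀ (g : G) (x : X), f' (g • x) = (χ g : R) * f' x) :
    ∑ x, f x * φ (f' x) = ∑ C : Od χ.ker X, (sz C.1 : R) * (f C.1.out * φ (f' C.1.out)) := by
  rw [sum_inv (G := G) (fun x => f x * φ (f' x))]
  · have h1 : ∀ C : orbitRel.Quotient G X, ¬ Gd χ.ker C → f C.out = 0 := by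
      intro C hC
      apply eig0 χ hf
      rwa [cl_out]
    have h2 : ∑ C : orbitRel.Quotient G X, (sz C : R) * (f C.out * φ (f' C.out)) =
        ∑ C ∈ univ.filter (fun C : orbitRel.Quotient G X => Gd χ.ker C),
          (sz C : R) * (f C.out * φ (f' C.out)) := by
      rw [sum_filter]
      refine sum_congr rfl fun C _ => ?_
      split_ifs with h3
      · rfl
      · rw [h1 C h3, zero_mul, mul_zero]
    rw [h2]
    exact Finset.sum_subtype _ (by simp) _
  · intro g x
    rw [hf, hf', map_mul]
    linear_combination (f x * φ (f' x)) * hφ g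

end wt

end Pool.Agent.TH905.PC
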