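import Mathlib
import Pool.Agent.TH905.PC.Wt
import Pool.Agent.H634R3.PPC.OrbTest

set_option autoImplicit false

/-!
# The incidence matrix on the eigenspaces
-/

namespace Pool.Agent.TH905.PC

open Finset MulAction Pool.Agent.H634R3.PPC

section mat

variable {G : Type} [Group G] {P L : Type} [Fintype P] [Fintype L] [MulAction G P]
  [MulAction G L] {inc : P → L → Prop}
variable {R : Type} [CommRing R]

open Classical in
/-- the image of an eigenfunction -/
noncomputable def ff (inc : P → L → Prop) (χ : G →* Rˣ) (C : orbitRel.Quotient G P) (l : L) : R :=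
  ∑ x : P, if cl G x = C ∧ inc x l then wt χ x else 0

omit [Fintype L] in
theorem ff_smul (hinc : ∀ (g : G) (p : P) (l : L), inc (g • p) (g • l) ↔ inc p l)
    (χ : G →* Rˣ) {C : orbitRel.Quotient G P} (hC : Gd χ.ker C) (g : G) (l : L) :
    ff inc χ C (g • l) = (χ g : R) * ff inc χ C l := by
  classical
  unfold ff
  rw [← Equiv.sum_comp (MulAction.toPerm g), mul_sum]
  refine sum_congr rfl fun x _ => ?_
  rw [MulAction.toPerm_apply, cl_smul, hinc]
  split_ifs with h
  · rw [wt_smul χ (by rw [h.1]; exact hC)]
  · rw [mul_zero]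

open Classical in
/-- the sum of the weights of an orbit -/
noncomputable def ss (χ : G →* Rˣ) (C : orbitRel.Quotient G P) : R :=
  ∑ x : P, if cl G x = C then wt χ x else 0

open Classical in
theorem ff_gram {n la : ℕ} (D : Des inc n la) {χ : G →* Rˣ} {φ : R →+* R}
    (hφ : ∀ g : G, φ (χ g : R) * (χ g : R) = 1) (C C' : orbitRel.Quotient G P) :
    ∑ l : L, ff inc χ C l * φ (ff inc χ C' l) =
      (if C = C' then (n : R) * (sz C : R) else 0) + (la : R) * (ss χ C * φ (ss χ C')) := by
  have e1 : ∀ l : L, ff inc χ C l * φ (ff inc χ C' l) = ∑ x : P, ∑ y : P,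
      if cl G x = C ∧ cl G y = C' then wt χ x * φ (wt χ y) * (if inc x l ∧ inc y l then 1 else 0)
        else 0 := by
    intro l
    unfold ff
    rw [map_sum, sum_mul_sum]
    refine sum_congr rfl fun x _ => sum_congr rfl fun y _ => ?_
    by_cases h1 : cl G x = C <;> by_cases h2 : cl G y = C' <;> by_cases h3 : inc x l <;>
      by_cases h4 : inc y l <;> simp [h1, h2, h3, h4]
  have e2 : ∀ x y : P, (∑ l : L, if cl G x = C ∧ cl G y = C' then
      wt χ x * φ (wt χ y) * (if inc x l ∧ inc y l then (1 : R) else 0) else 0) =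
      if cl G x = C ∧ cl G y = C' then wt χ x * φ (wt χ y) * ((if x = y then (n : R) else 0) + la)
        else 0 := by
    intro x y
    split_ifs with h1 h2
    · rw [← mul_sum, sum_boole, D.row, if_pos h2]
      push_cast
      rfl
    · rw [← mul_sum, sum_boole, D.row, if_neg h2]
      push_cast
      rfl
    · simp
  rw [sum_congr rfl (fun l _ => e1 l), sum_comm]
  have e3 : ∀ x : P, (∑ l : L, ∑ y : P, if cl G x = C ∧ cl G y = C' then
      wt χ x * φ (wt χ y) * (if inc x l ∧ inc y l then (1 : R) else 0) else 0) =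
      (if cl G x = C ∧ cl G x = C' then (n : R) else 0) +
        (la : R) * ∑ y : P, (if cl G x = C then wt χ x else 0) *
          (if cl G y = C' then φ (wt χ y) else 0) := by
    intro x
    rw [sum_comm, sum_congr rfl (fun y _ => e2 x y)]
    have e4 : ∀ y : P, (if cl G x = C ∧ cl G y = C' then
        wt χ x * φ (wt χ y) * ((if x = y then (n : R) else 0) + la) else 0) =
        (if x = y then (if cl G x = C ∧ cl G y = C' then (n : R) else 0) else 0) +
          la * ((if cl G x = C then wt χ x else 0) * (if cl G y = C' then φ (wt χ y) else 0)) := by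
      intro y
      by_cases h3 : x = y
      · subst h3
        have h5 : wt χ x * φ (wt χ x) = 1 := by
          unfold wt
          rw [mul_comm]
          exact hφ _
        rw [if_pos rfl, if_pos rfl]
        by_cases h1 : cl G x = C
        · by_cases h2 : cl G x = C'
          · rw [if_pos ⟨h1, h2⟩, if_pos ⟨h1, h2⟩, if_pos h1, if_pos h2]
            linear_combination (n : R) * h5
          · rw [if_neg (fun h => h2 h.2), if_neg (fun h => h2 h.2), if_neg h2]
            ring
        · rw [if_neg (fun h => h1 h.1), if_neg (fun h => h1 h.1), if_neg h1]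
          ring
      · rw [if_neg h3, if_neg h3]
        by_cases h1 : cl G x = C
        · by_cases h2 : cl G y = C'
          · rw [if_pos ⟨h1, h2⟩, if_pos h1, if_pos h2]
            ring
          · rw [if_neg (fun h => h2 h.2), if_neg h2]
            ring
        · rw [if_neg (fun h => h1 h.1), if_neg h1]
          ring
    rw [sum_congr rfl (fun y _ => e4 y), sum_add_distrib, sum_ite_eq, if_pos (mem_univ _),
      ← mul_sum]
  rw [sum_congr rfl (fun x _ => e3 x), sum_add_distrib, ← mul_sum]
  congr 1
  · by_cases hC : C = C'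
    · subst hC
      rw [if_pos rfl]
      simp only [and_self]
      rw [← sum_filter, sum_const, nsmul_eq_mul, mul_comm]
      rfl
    · rw [if_neg hC]
      apply sum_eq_zero
      intro x _
      rw [if_neg]
      rintro ⟨h1, h2⟩
      exact hC (h1.symm.trans h2)
  · congr 1
    unfold ss
    rw [map_sum, sum_mul_sum]
    refine sum_congr rfl fun x _ => sum_congr rfl fun y _ => ?_
    congr 1
    split_ifs <;> simp

open Classical in
/-- the matrix of the incidence relation on the eigenspaces -/
noncomputable def am (inc : P → L → Prop) (χ : G →* Rˣ) :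
    Matrix (Od χ.ker L) (Od χ.ker P) R := fun D C => ff inc χ C.1 D.1.out

/-- the sizes of the good orbits -/
noncomputable def dg (χ : G →* Rˣ) (X : Type) [Fintype X] [MulAction G X] :
    Od χ.ker X → R := fun C => (sz C.1 : R)

variable [IsDomain R]

open Classical in
theorem am_gram (hinc : ∀ (g : G) (p : P) (l : L), inc (g • p) (g • l) ↔ inc p l)
    {n la : ℕ} (D : Des inc n la) {χ : G →* Rˣ} {φ : R →+* R}
    (hφ : ∀ g : G, φ (χ g : R) * (χ g : R) = 1) (C C' : Od χ.ker P) :
    ((am inc χ).transpose * Matrix.diagonal (dg χ L) * (am inc χ).map φ) C C' =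
      (if C = C' then (n : R) * dg χ P C else 0) + (la : R) * (ss χ C.1 * φ (ss χ C'.1)) := by
  have h1 := ff_gram D hφ C.1 C'.1
  rw [sum_eig hφ (ff_smul hinc χ C.2) (ff_smul hinc χ C'.2)] at h1
  rw [Matrix.mul_apply]
  simp only [Matrix.mul_diagonal, Matrix.transpose_apply, Matrix.map_apply]
  have h2 : (if C = C' then (n : R) * dg χ P C else 0) =
      (if C.1 = C'.1 then (n : R) * (sz C.1 : R) else 0) := by
    simp only [Subtype.ext_iff]
    rfl
  rw [h2, ← h1]
  refine sum_congr rfl fun l _ => ?_
  unfold am dg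
  ring

theorem ss_zero {χ : G →* Rˣ} (hχ : χ ≠ 1) {C : orbitRel.Quotient G P} (hC : Gd χ.ker C) :
    ss χ C = 0 := by
  classical
  obtain ⟨g, hg⟩ : ∃ g : G, χ g ≠ 1 := by
    by_contra hcon
    push Not at hcon
    exact hχ (MonoidHom.ext hcon)
  have h1 : ss χ C = (χ g : R) * ss χ C := by
    conv_lhs => unfold ss
    rw [← Equiv.sum_comp (MulAction.toPerm g)]
    unfold ss
    rw [mul_sum]
    refine sum_congr rfl fun x _ => ?_
    rw [MulAction.toPerm_apply, cl_smul]
    split_ifs with h
    · rw [wt_smul χ (by rw [h]; exact hC)]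
    · rw [mul_zero]
  have h2 : ((χ g : R) - 1) * ss χ C = 0 := by rw [sub_mul, ← h1, one_mul, sub_self]
  rcases mul_eq_zero.1 h2 with h3 | h3
  · exfalso
    apply hg
    apply Units.ext
    rw [Units.val_one]
    exact sub_eq_zero.1 h3
  · exact h3

open Classical in
/-- nontrivial characters -/
theorem am_gram' (hinc : ∀ (g : G) (p : P) (l : L), inc (g • p) (g • l) ↔ inc p l)
    {n la : ℕ} (D : Des inc n la) {χ : G →* Rˣ} (hχ : χ ≠ 1) {φ : R →+* R}
    (hφ : ∀ g : G, φ (χ g : R) * (χ g : R) = 1) :
    (am inc χ).transpose * Matrix.diagonal (dg χ L) * (am inc χ).map φ =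
      (n : R) • Matrix.diagonal (dg χ P) := by
  ext C C'
  rw [am_gram hinc D hφ, ss_zero hχ C.2, zero_mul, mul_zero, add_zero, Matrix.smul_apply,
    Matrix.diagonal_apply, smul_eq_mul]
  split_ifs <;> simp

end mat

theorem card_le_of_det {R : Type} [CommRing R] [IsDomain R] {m l : Type} [Fintype m] [Fintype l]
    [DecidableEq m] (M : Matrix m l R) (N : Matrix l m R) (h : (M * N).det ≠ 0) :
    Fintype.card m ≤ Fintype.card l := by
  classical
  let K := FractionRing R
  let ψ : R →+* K := algebraMap R K
  have hinj : Function.Injective ψ := IsFractionRing.injective R K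
  have h1 : ((M.map ψ) * (N.map ψ)).det ≠ 0 := by
    rw [← Matrix.map_mul]
    have h2 := RingHom.map_det ψ (M * N)
    intro h3
    apply h
    apply hinj
    rw [map_zero, h2]
    exact h3
  have h2 : ((M.map ψ) * (N.map ψ)).rank = Fintype.card m :=
    Matrix.rank_of_isUnit _ ((Matrix.isUnit_iff_isUnit_det _).2 (isUnit_iff_ne_zero.2 h1))
  rw [← h2]
  exact (Matrix.rank_mul_le_left _ _).trans (Matrix.rank_le_card_width _)

theorem des_dual {P L : Type} [Fintype P] [Fintype L] {inc : P → L → Prop} {n la : ℕ}
    (D : Des inc n la) : Des (fun (l : L) (x : P) => inc x l) n la :=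
  ⟨D.col, D.row, D.card.symm, D.npos⟩

end Pool.Agent.TH905.PC
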