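import Mathlib

set_option autoImplicit false

/-!
# The coefficient ring: Witt vectors of an algebraic closure of the prime field (file of helper56)
-/

namespace Pool.Agent.TH905.PC

open WittVector

theorem even_aux {R : Type} [CommRing R] [IsDomain R] (φ : R →+* R) (π : R)
    (hirr : Irreducible π) (hφ : φ π = π)
    (hdec : ∀ D : R, D ≠ 0 → ∃ (m : ℕ) (b : R), IsUnit b ∧ D = π ^ m * b)
    (D : R) (k : ℕ) (w : R) (hw : IsUnit w) (hD : D * φ D = π ^ k * w) : Even k := by
  have hp0 : π ≠ 0 := hirr.ne_zero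
  have hD0 : D ≠ 0 := by
    rintro rfl
    rw [zero_mul] at hD
    exact (mul_ne_zero (pow_ne_zero _ hp0) hw.ne_zero) hD.symm
  obtain ⟨m, b, hbu, rfl⟩ := hdec D hD0
  have h1 : φ (π ^ m * b) = π ^ m * φ b := by
    rw [map_mul, map_pow, hφ]
  rw [h1] at hD
  have h2 : π ^ (2 * m) * (b * φ b) = π ^ k * w := by
    rw [← hD]; ring
  have hu2 : IsUnit (b * φ b) := hbu.mul (hbu.map _)
  rcases lt_trichotomy (2 * m) k with h | h | h
  · exfalso
    obtain ⟨c, rfl⟩ := Nat.exists_eq_add_of_lt h
    have h3 : π ^ (2 * m) * (b * φ b) = π ^ (2 * m) * (π ^ (c + 1) * w) := by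
      rw [h2]; ring
    have h4 := mul_left_cancel₀ (pow_ne_zero _ hp0) h3
    apply hirr.not_isUnit
    have h5 : π ∣ b * φ b := by
      rw [h4, pow_succ']
      exact ⟨π ^ c * w, by ring⟩
    exact isUnit_of_dvd_unit h5 hu2
  · rw [← h]; exact even_two_mul m
  · exfalso
    obtain ⟨c, hc⟩ := Nat.exists_eq_add_of_lt h
    have h3 : π ^ k * w = π ^ k * (π ^ (c + 1) * (b * φ b)) := by
      rw [← h2, hc]; ring
    have h4 := mul_left_cancel₀ (pow_ne_zero _ hp0) h3
    apply hirr.not_isUnit
    have h5 : π ∣ w := by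
      rw [h4, pow_succ']
      exact ⟨π ^ c * (b * φ b), by ring⟩
    exact isUnit_of_dvd_unit h5 hw

/-- a domain with a Frobenius endomorphism, a root of unity and a prime element -/
theorem witt_setup (p : ℕ) (hp : p.Prime) (e : ℕ) (he : ¬ p ∣ e) (j : ℕ) :
    ∃ (R : Type) (_ : CommRing R) (_ : IsDomain R) (φ : R →+* R) (α : Rˣ),
      IsPrimitiveRoot (α : R) e ∧ φ (α : R) = (α : R) ^ p ^ j ∧
      (∀ m : ℕ, ¬ p ∣ m → IsUnit (m : R)) ∧
      (∀ (D : R) (k : ℕ) (w : R), IsUnit w → D * φ D = (p : R) ^ k * w → Even k) ∧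
      (p : R) ≠ 0 := by
  have : Fact p.Prime := ⟨hp⟩
  let K := AlgebraicClosure (ZMod p)
  have : CharP K p := charP_of_injective_algebraMap (algebraMap (ZMod p) K).injective p
  have : NeZero (e : K) := ⟨by
    rw [Ne, CharP.cast_eq_zero_iff K p]
    exact he⟩
  obtain ⟨a0, ha0⟩ := HasEnoughRootsOfUnity.exists_primitiveRoot K e
  let R := WittVector p K
  let φ0 : R →+* R := WittVector.frobenius
  let t : K →* R := WittVector.teichmuller p
  have ht : Function.Injective t := by
    intro x y hxy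
    have h1 : (WittVector.teichmuller p x).coeff 0 = (WittVector.teichmuller p y).coeff 0 :=
      congrArg (fun z : R => z.coeff 0) hxy
    rwa [WittVector.teichmuller_coeff_zero, WittVector.teichmuller_coeff_zero] at h1
  have hprim : IsPrimitiveRoot (t a0) e := ha0.map_of_injective ht
  have he0 : e ≠ 0 := by rintro rfl; exact he (dvd_zero p)
  have hu : IsUnit (t a0) := hprim.isUnit he0
  obtain ⟨α, hα⟩ := hu
  have hφ0 : ∀ x : K, φ0 (t x) = t x ^ p := by
    intro x
    have h1 : φ0 (t x) = WittVector.map (_root_.frobenius K p) (t x) := by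
      rw [← WittVector.frobenius_eq_map_frobenius]
    rw [h1]
    change WittVector.map (_root_.frobenius K p) (WittVector.teichmuller p x) = _
    rw [WittVector.map_teichmuller, frobenius_def, map_pow]
  have hφ : ∀ i : ℕ, (φ0 ^ i) (t a0) = t a0 ^ p ^ i := by
    intro i
    induction i with
    | zero => simp
    | succ i ih =>
      rw [pow_succ', RingHom.mul_def, RingHom.comp_apply, ih, map_pow, hφ0, ← pow_mul, pow_succ']
  have hirr : Irreducible ((p : ℕ) : R) := WittVector.irreducible p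
  refine ⟨R, inferInstance, inferInstance, φ0 ^ j, α, by rw [hα]; exact hprim, ?_, ?_, ?_,
    hirr.ne_zero⟩
  · rw [hα, hφ]
  · intro m hm
    apply WittVector.isUnit_of_coeff_zero_ne_zero
    have h1 : (WittVector.constantCoeff (p := p) (R := K)) (m : R) = (m : K) := map_natCast _ m
    have h2 : (WittVector.constantCoeff (p := p) (R := K)) (m : R) = ((m : R)).coeff 0 := rfl
    rw [← h2, h1, Ne, CharP.cast_eq_zero_iff K p]
    exact hm
  · apply even_aux (φ0 ^ j) ((p : ℕ) : R) hirr (map_natCast _ p)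
    intro D hD0
    obtain ⟨m, b, hb, h⟩ := WittVector.exists_eq_pow_p_mul D hD0
    exact ⟨m, b, WittVector.isUnit_of_coeff_zero_ne_zero b hb, h⟩

end Pool.Agent.TH905.PC
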