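import Mathlib
import Pool.Agent.TH905.PC.Mat
import Pool.Agent.TH905.PC.Wit

set_option autoImplicit false

/-!
# Parity of the multiplicities of the linear characters
-/

namespace Pool.Agent.TH905.PC

open Finset MulAction Pool.Agent.H634R3.PPC

section par

variable {G : Type} [Group G] {P L : Type} [Fintype P] [Fintype L] [MulAction G P]
  [MulAction G L] {inc : P → L → Prop}
variable {R : Type} [CommRing R] [IsDomain R]

theorem card_le (hinc : ∀ (g : G) (p : P) (l : L), inc (g • p) (g • l) ↔ inc p l)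
    {n la : ℕ} (D : Des inc n la) {χ : G →* Rˣ} (hχ : χ ≠ 1) {φ : R →+* R}
    (hφ : ∀ g : G, φ (χ g : R) * (χ g : R) = 1) (hn : (n : R) ≠ 0)
    (hsz : ∀ C : orbitRel.Quotient G P, (sz C : R) ≠ 0) :
    Fintype.card (Od χ.ker P) ≤ Fintype.card (Od χ.ker L) := by
  classical
  apply card_le_of_det ((am inc χ).transpose * Matrix.diagonal (dg χ L)) ((am inc χ).map φ)
  rw [am_gram' hinc D hχ hφ, Matrix.det_smul, Matrix.det_diagonal]
  exact mul_ne_zero (pow_ne_zero _ hn) (Finset.prod_ne_zero_iff.2 fun C _ => hsz _)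

theorem card_eq (hinc : ∀ (g : G) (p : P) (l : L), inc (g • p) (g • l) ↔ inc p l)
    {n la : ℕ} (D : Des inc n la) {χ : G →* Rˣ} (hχ : χ ≠ 1) {φ : R →+* R}
    (hφ : ∀ g : G, φ (χ g : R) * (χ g : R) = 1) (hn : (n : R) ≠ 0)
    (hsz : ∀ C : orbitRel.Quotient G P, (sz C : R) ≠ 0)
    (hsz' : ∀ C : orbitRel.Quotient G L, (sz C : R) ≠ 0) :
    Fintype.card (Od χ.ker P) = Fintype.card (Od χ.ker L) :=
  le_antisymm (card_le hinc D hχ hφ hn hsz)
    (card_le (inc := fun (l : L) (x : P) => inc x l) (fun g l x => hinc g x l) (des_dual D) hχ hφ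
      hn hsz')

theorem even_card (hinc : ∀ (g : G) (p : P) (l : L), inc (g • p) (g • l) ↔ inc p l)
    {n la : ℕ} (D : Des inc n la) {χ : G →* Rˣ} (hχ : χ ≠ 1) {φ : R →+* R}
    (hφ : ∀ g : G, φ (χ g : R) * (χ g : R) = 1) {p : ℕ}
    (hunit : ∀ m : ℕ, ¬ p ∣ m → IsUnit (m : R)) (hp0 : (p : R) ≠ 0)
    (heven : ∀ (D : R) (k : ℕ) (w : R), IsUnit w → D * φ D = (p : R) ^ k * w → Even k)
    (hsz : ∀ C : orbitRel.Quotient G P, ¬ p ∣ sz C)
    (hsz' : ∀ C : orbitRel.Quotient G L, ¬ p ∣ sz C)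
    {a u : ℕ} (ha : Odd a) (hu : ¬ p ∣ u) (hN : n = p ^ a * u) :
    Even (Fintype.card (Od χ.ker P)) := by
  classical
  have hn : (n : R) = (p : R) ^ a * (u : R) := by rw [hN]; push_cast; ring
  have hn0 : (n : R) ≠ 0 := by
    rw [hn]
    exact mul_ne_zero (pow_ne_zero _ hp0) (hunit u hu).ne_zero
  have hcard := card_eq hinc D hχ hφ hn0 (fun C => (hunit _ (hsz C)).ne_zero)
    (fun C => (hunit _ (hsz' C)).ne_zero)
  let ε : Od χ.ker P ≃ Od χ.ker L := Fintype.equivOfCardEq hcard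
  let A : Matrix (Od χ.ker P) (Od χ.ker P) R := (am inc χ).submatrix ε id
  have k1 := am_gram' hinc D hχ hφ
  have k3 : A.transpose * (Matrix.diagonal (dg χ L)).submatrix ε ε * A.map φ =
      (n : R) • Matrix.diagonal (dg χ P) := by
    rw [← k1]
    have h1 : A.transpose = (am inc χ).transpose.submatrix id ε := rfl
    have h2 : A.map φ = ((am inc χ).map φ).submatrix ε id := rfl
    rw [h1, h2, Matrix.submatrix_mul_equiv, Matrix.submatrix_mul_equiv, Matrix.submatrix_id_id]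
  have k4 := congrArg Matrix.det k3
  rw [Matrix.det_mul, Matrix.det_mul, Matrix.det_transpose, Matrix.det_submatrix_equiv_self,
    Matrix.det_smul, Matrix.det_diagonal, Matrix.det_diagonal] at k4
  have h5 : (A.map φ).det = φ A.det := (RingHom.map_det φ A).symm
  have uP : IsUnit (∏ i, dg χ P i) := by
    rw [IsUnit.prod_univ_iff]
    exact fun C => hunit _ (hsz _)
  have uL : IsUnit (∏ i, dg χ L i) := by
    rw [IsUnit.prod_univ_iff]
    exact fun C => hunit _ (hsz' _)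
  rw [h5, hn] at k4
  obtain ⟨dL, hdL'⟩ := uL
  rw [← hdL'] at k4
  have k5 : A.det * φ A.det = (p : R) ^ (a * Fintype.card (Od χ.ker P)) *
      ((u : R) ^ Fintype.card (Od χ.ker P) * (∏ i, dg χ P i) * ((dL⁻¹ : Rˣ) : R)) := by
    have h6 : A.det * φ A.det = (A.det * (dL : R) * φ A.det) * ((dL⁻¹ : Rˣ) : R) := by
      have h7 : (dL : R) * ((dL⁻¹ : Rˣ) : R) = 1 := Units.mul_inv dL
      calc A.det * φ A.det = A.det * φ A.det * ((dL : R) * ((dL⁻¹ : Rˣ) : R)) := by
            rw [h7, mul_one]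
        _ = _ := by ring
    rw [h6, k4, mul_pow, ← pow_mul]
    ring
  have k6 := heven A.det _ _ ((((hunit u hu).pow _).mul uP).mul (Units.isUnit _)) k5
  exact (Nat.even_mul.1 k6).resolve_left (Nat.not_even_iff_odd.2 ha)

/-- transport of a linear character with values in the roots of unity -/
theorem transport {M : ℕ} (hM : M ≠ 0) {S : Type} [CommRing S] [IsDomain S] {ζ : S}
    (hζ : IsPrimitiveRoot ζ M) {α : R} (hα : IsPrimitiveRoot α M) (χ : G →* Sˣ)
    (hχ : ∀ g : G, (χ g) ^ M = 1) : ∃ χ' : G →* Rˣ, χ'.ker = χ.ker ∧ ∀ g, (χ' g) ^ M = 1 := by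
  have : NeZero M := ⟨hM⟩
  have c1 : Nat.card (rootsOfUnity M S) = M := hζ.card_rootsOfUnity
  have c2 : Nat.card (rootsOfUnity M R) = M := hα.card_rootsOfUnity
  let e : rootsOfUnity M S ≃* rootsOfUnity M R := mulEquivOfCyclicCardEq (c1.trans c2.symm)
  let χ0 : G →* rootsOfUnity M S := χ.codRestrict (rootsOfUnity M S) (fun g => by
    rw [mem_rootsOfUnity]; exact hχ g)
  refine ⟨(rootsOfUnity M R).subtype.comp (e.toMonoidHom.comp χ0), ?_, ?_⟩
  · ext g
    rw [MonoidHom.mem_ker, MonoidHom.mem_ker]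
    constructor
    · intro h
      have h1 : e (χ0 g) = 1 := Subtype.ext h
      have h2 : χ0 g = 1 := by
        apply e.injective
        rw [h1, map_one]
      exact congrArg Subtype.val h2
    · intro h
      have h2 : χ0 g = 1 := Subtype.ext h
      show ((e (χ0 g) : rootsOfUnity M R) : Rˣ) = 1
      rw [h2, map_one]
      rfl
  · intro g
    exact (mem_rootsOfUnity M _).1 (e (χ0 g)).2

end par

section cx

variable {G : Type} [Group G] {P L : Type} [Fintype P] [Fintype L] [MulAction G P]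
  [MulAction G L] {inc : P → L → Prop}

/-- **The parity of the multiplicities.** -/
theorem even_mult (hinc : ∀ (g : G) (p : P) (l : L), inc (g • p) (g • l) ↔ inc p l)
    {n la : ℕ} (D : Des inc n la) {M : ℕ} (hM : M ≠ 0) (χ : G →* ℂˣ) (hχ : χ ≠ 1)
    (hχM : ∀ g, (χ g) ^ M = 1) {p : ℕ} (hp : p.Prime) (hpM : M ∣ p + 1)
    (hsz : ∀ C : orbitRel.Quotient G P, ¬ p ∣ sz C)
    (hsz' : ∀ C : orbitRel.Quotient G L, ¬ p ∣ sz C)
    {a u : ℕ} (ha : Odd a) (hu : ¬ p ∣ u) (hN : n = p ^ a * u) :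
    Even (Fintype.card (Od χ.ker P)) := by
  have hpM' : ¬ p ∣ M := by
    intro h
    have h1 : p ∣ p + 1 := h.trans hpM
    have h2 : p ∣ 1 := (Nat.dvd_add_right dvd_rfl).1 h1
    exact hp.one_lt.ne' (Nat.dvd_one.1 h2)
  obtain ⟨R, iR, iD, φ, α, hα, hφ, hunit, heven, hp0⟩ := witt_setup p hp M hpM' 1
  rw [pow_one] at hφ
  have hζ := Complex.isPrimitiveRoot_exp M hM
  obtain ⟨χ', hk, hM'⟩ := transport hM hζ hα χ hχM
  have hφ' : ∀ g : G, φ (χ' g : R) * (χ' g : R) = 1 := by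
    intro g
    have : NeZero M := ⟨hM⟩
    have h1 : (χ' g : R) ^ M = 1 := by
      rw [← Units.val_pow_eq_pow_val, hM' g, Units.val_one]
    obtain ⟨i, -, hi⟩ := hα.eq_pow_of_pow_eq_one h1
    rw [← hi, map_pow, hφ, ← pow_mul, ← pow_add]
    obtain ⟨c, hc⟩ := hpM
    have e : p * i + i = M * (c * i) := by
      have : p * i + i = (p + 1) * i := by ring
      rw [this, hc]; ring
    rw [e, pow_mul, hα.pow_eq_one, one_pow]
  have hχ' : χ' ≠ 1 := by
    intro h
    apply hχ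
    rw [← MonoidHom.ker_eq_top_iff] at h ⊢
    rw [← hk, h]
  have h := even_card hinc D hχ' hφ' hunit hp0 heven hsz hsz' ha hu hN
  rwa [hk] at h

end cx

end Pool.Agent.TH905.PC
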