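import Mathlib
import Pool.Agent.TH905.PC.Mat
import Pool.Agent.W825.KV.Smith

set_option autoImplicit false

/-!
# Quadratic forms on the eigenspaces of the real linear characters
-/

namespace Pool.Agent.TH905.PC

open Finset MulAction Pool.Agent.H634R3.PPC

section quad

variable {G : Type} [Group G] {P L : Type} [Fintype P] [Fintype L] [MulAction G P]
  [MulAction G L] {inc : P → L → Prop}

theorem id_phi (χ : G →* ℤˣ) (g : G) : (RingHom.id ℤ) (χ g : ℤ) * (χ g : ℤ) = 1 := by
  rw [RingHom.id_apply, ← Units.val_mul, Int.units_mul_self, Units.val_one]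

theorem prime_prod {p : ℕ} (hp : p.Prime) {X : Type} (s : Finset X) (f : X → ℕ)
    (h : ∀ x ∈ s, ¬ p ∣ f x) : ¬ (p : ℤ) ∣ ∏ x ∈ s, (f x : ℤ) := by
  intro h1
  obtain ⟨x, hx, h2⟩ := (Prime.dvd_finsetProd_iff (Nat.prime_iff_prime_int.1 hp) _).1 h1
  exact h x hx (by exact_mod_cast h2)

/-- nontrivial characters with values `1` and `-1` -/
theorem quad_nontriv (hinc : ∀ (g : G) (p : P) (l : L), inc (g • p) (g • l) ↔ inc p l)
    {n la : ℕ} (D : Des inc n la) {χ : G →* ℤˣ} (hχ : χ ≠ 1) {p : ℕ} (hp : p.Prime)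
    (hsz : ∀ C : orbitRel.Quotient G P, ¬ p ∣ sz C)
    (hsz' : ∀ C : orbitRel.Quotient G L, ¬ p ∣ sz C)
    {a u : ℕ} (ha : Odd a) (hu : ¬ p ∣ u) (hN : n = p ^ a * u) :
    ∃ t, Fintype.card (Od χ.ker P) = 2 * t ∧
      IsSquare ((-1) ^ t * (((∏ C : Od χ.ker P, (sz C.1 : ℤ) : ℤ)) : ZMod p)) := by
  classical
  have hn0 : (n : ℤ) ≠ 0 := by exact_mod_cast D.npos.ne'
  have hle : ∀ {X Y : Type} [Fintype X] [Fintype Y] [MulAction G X] [MulAction G Y]
      {inc : X → Y → Prop} (_ : ∀ (g : G) (p : X) (l : Y), inc (g • p) (g • l) ↔ inc p l)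
      (_ : Des inc n la), Fintype.card (Od χ.ker X) ≤ Fintype.card (Od χ.ker Y) := by
    intro X Y _ _ _ _ inc hinc D
    apply card_le_of_det ((am inc χ).transpose * Matrix.diagonal (dg χ Y))
      ((am inc χ).map (RingHom.id ℤ))
    rw [am_gram' hinc D hχ (id_phi χ), Matrix.det_smul, Matrix.det_diagonal]
    refine mul_ne_zero (pow_ne_zero _ hn0) (Finset.prod_ne_zero_iff.2 fun C _ => ?_)
    have := sz_pos C.1
    unfold dg
    exact_mod_cast this.ne'
  have hcard : Fintype.card (Od χ.ker P) = Fintype.card (Od χ.ker L) :=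
    le_antisymm (hle hinc D) (hle (inc := fun (l : L) (x : P) => inc x l)
      (fun g l x => hinc g x l) (des_dual D))
  let ε : Od χ.ker P ≃ Od χ.ker L := Fintype.equivOfCardEq hcard
  let A : Matrix (Od χ.ker P) (Od χ.ker P) ℤ := (am inc χ).submatrix ε id
  have k1 := am_gram' hinc D hχ (id_phi χ)
  have k3 : A.transpose * (Matrix.diagonal (dg χ L)).submatrix ε ε * A.transpose.transpose =
      (n : ℤ) • Matrix.diagonal (dg χ P) := by
    rw [← k1, Matrix.transpose_transpose]
    have h1 : A.transpose = (am inc χ).transpose.submatrix id ε := rfl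
    have h2 : A = ((am inc χ).map (RingHom.id ℤ)).submatrix ε id := rfl
    rw [h1, h2, Matrix.submatrix_mul_equiv, Matrix.submatrix_mul_equiv, Matrix.submatrix_id_id]
  have dP : ¬ (p : ℤ) ∣ (Matrix.diagonal (dg (R := ℤ) χ P)).det := by
    rw [Matrix.det_diagonal]
    exact prime_prod hp univ (fun C : Od χ.ker P => sz C.1) (fun C _ => hsz _)
  have dL : ¬ (p : ℤ) ∣ ((Matrix.diagonal (dg (R := ℤ) χ L)).submatrix ε ε).det := by
    rw [Matrix.det_submatrix_equiv_self, Matrix.det_diagonal]
    exact prime_prod hp univ (fun C : Od χ.ker L => sz C.1) (fun C _ => hsz' _)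
  obtain ⟨t, h1, h2⟩ := Pool.Agent.W825.KV.simil_odd A.transpose
    ((Matrix.diagonal (dg χ L)).submatrix ε ε) (Matrix.diagonal (dg χ P)) (n : ℤ) p hp
    (by rw [Matrix.transpose_submatrix, Matrix.diagonal_transpose])
    (Matrix.diagonal_transpose _) k3 ha (u := (u : ℤ)) (by exact_mod_cast hu)
    (by rw [hN]; push_cast; ring) dL dP
  refine ⟨t, h1, ?_⟩
  rw [Matrix.det_diagonal] at h2
  exact h2

/-! ### The trivial character -/

theorem gd_one {X : Type} [MulAction G X] (C : orbitRel.Quotient G X) :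
    Gd (1 : G →* ℤˣ).ker C := fun _ _ _ _ => rfl

theorem ss_one (C : orbitRel.Quotient G P) : ss (1 : G →* ℤˣ) C = (sz C : ℤ) := by
  classical
  unfold ss sz
  rw [← sum_filter]
  have h1 : ∀ x ∈ univ.filter (fun x : P => cl G x = C), wt (1 : G →* ℤˣ) x = 1 := fun x _ => rfl
  rw [sum_congr rfl h1, sum_const, nsmul_eq_mul, mul_one]

theorem ff_one_smul (hinc : ∀ (g : G) (p : P) (l : L), inc (g • p) (g • l) ↔ inc p l)
    (C : orbitRel.Quotient G P) (g : G) (l : L) :
    ff inc (1 : G →* ℤˣ) C (g • l) = ff inc (1 : G →* ℤˣ) C l := by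
  rw [ff_smul hinc 1 (gd_one C), MonoidHom.one_apply, Units.val_one, one_mul]

open Classical in
theorem ff_one_sum {n la : ℕ} (D : Des inc n la) (C : orbitRel.Quotient G P) :
    ∑ l : L, ff inc (1 : G →* ℤˣ) C l = (sz C : ℤ) * ((n : ℤ) + la) := by
  unfold ff
  rw [sum_comm]
  have h1 : ∀ x : P, (∑ l : L, if cl G x = C ∧ inc x l then wt (1 : G →* ℤˣ) x else 0) =
      if cl G x = C then ((n : ℤ) + la) else 0 := by
    intro x
    by_cases hx : cl G x = C
    · simp only [hx, true_and, if_true]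
      have h2 := D.row x x
      rw [if_pos rfl] at h2
      simp only [and_self] at h2
      have h3 : wt (1 : G →* ℤˣ) x = 1 := rfl
      rw [h3, sum_boole, h2]
      push_cast
      rfl
    · simp [hx]
  rw [sum_congr rfl (fun x _ => h1 x), ← sum_filter, sum_const, nsmul_eq_mul]
  rfl

open Classical in
theorem des_sq [Nonempty P] {n la : ℕ} (D : Des inc n la) :
    ((n : ℤ) + la) * (n + la) = n + la * Fintype.card L := by
  obtain ⟨x⟩ := ‹Nonempty P›
  have h1 : ∑ z : P, (univ.filter (fun l : L => inc x l ∧ inc z l)).card =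
      n + la * Fintype.card P := by
    simp only [D.row]
    rw [sum_add_distrib, sum_ite_eq, if_pos (mem_univ _), sum_const, smul_eq_mul, card_univ,
      mul_comm]
  have h2 : ∑ z : P, (univ.filter (fun l : L => inc x l ∧ inc z l)).card =
      (n + la) * (n + la) := by
    have e1 : ∀ z : P, (univ.filter (fun l : L => inc x l ∧ inc z l)).card =
        ∑ l : L, if inc x l then (if inc z l then 1 else 0) else 0 := by
      intro z
      rw [card_filter]
      refine sum_congr rfl fun l _ => ?_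
      by_cases h3 : inc x l <;> by_cases h4 : inc z l <;> simp [h3, h4]
    rw [sum_congr rfl (fun z _ => e1 z), sum_comm]
    have e2 : ∀ l : L, (∑ z : P, if inc x l then (if inc z l then 1 else 0) else 0) =
        if inc x l then (n + la) else 0 := by
      intro l
      split_ifs with h3
      · have h4 := D.col l l
        rw [if_pos rfl] at h4
        simp only [and_self] at h4
        rw [← h4, card_filter]
      · simp
    rw [sum_congr rfl (fun l _ => e2 l), ← sum_filter, sum_const, smul_eq_mul]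
    have h5 := D.row x x
    rw [if_pos rfl] at h5
    simp only [and_self] at h5
    rw [h5]
  rw [← D.card]
  have h3 := h2.symm.trans h1
  exact_mod_cast h3

/-- the extended orbit matrix -/
noncomputable def bx (G : Type) [Group G] {P L : Type} [Fintype P] [Fintype L] [MulAction G P]
    [MulAction G L] (inc : P → L → Prop) (n la : ℕ) :
    Matrix (orbitRel.Quotient G P ⊕ Unit) (orbitRel.Quotient G L ⊕ Unit) ℤ
  | Sum.inl C, Sum.inl D => ff inc (1 : G →* ℤˣ) C D.out
  | Sum.inl C, Sum.inr _ => (sz C : ℤ)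
  | Sum.inr _, Sum.inl _ => (la : ℤ)
  | Sum.inr _, Sum.inr _ => (n : ℤ) + la

/-- the extended form -/
noncomputable def px (G : Type) [Group G] (X : Type) [Fintype X] [MulAction G X] (la : ℕ) :
    orbitRel.Quotient G X ⊕ Unit → ℤ := Sum.elim (fun C => (sz C : ℤ)) (fun _ => -(la : ℤ))

open Classical in
theorem bx_gram [Nonempty P] (hinc : ∀ (g : G) (p : P) (l : L), inc (g • p) (g • l) ↔ inc p l)
    {n la : ℕ} (D : Des inc n la) :
    bx G inc n la * Matrix.diagonal (px G L la) * (bx G inc n la).transpose =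
      (n : ℤ) • Matrix.diagonal (px G P la) := by
  have hF : ∀ F : L → ℤ, (∀ (g : G) (l : L), F (g • l) = F l) →
      ∑ C : orbitRel.Quotient G L, F C.out * (sz C : ℤ) = ∑ l, F l := by
    intro F h
    rw [sum_inv (G := G) F h]
    exact sum_congr rfl fun C _ => mul_comm _ _
  have h1 : ∀ C : orbitRel.Quotient G P,
      ∑ E : orbitRel.Quotient G L, ff inc (1 : G →* ℤˣ) C E.out * (sz E : ℤ) =
        (sz C : ℤ) * ((n : ℤ) + la) := by
    intro C
    rw [hF _ (ff_one_smul hinc C), ff_one_sum D]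
  ext i j
  rw [Matrix.mul_apply, Fintype.sum_sum_type]
  simp only [Matrix.mul_diagonal, Matrix.transpose_apply, Finset.univ_unique,
    Finset.sum_singleton, Matrix.smul_apply, smul_eq_mul, Matrix.diagonal_apply]
  rcases i with C | i
  · rcases j with C' | j
    · simp only [bx, px, Sum.elim_inl, Sum.elim_inr, Sum.inl.injEq]
      have h2 := ff_gram (G := G) D (id_phi (1 : G →* ℤˣ)) C C'
      simp only [RingHom.id_apply, ss_one] at h2
      have h3 := hF (fun l => ff inc (1 : G →* ℤˣ) C l * ff inc (1 : G →* ℤˣ) C' l)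
        (fun g l => by rw [ff_one_smul hinc, ff_one_smul hinc])
      rw [h2] at h3
      have h4 : ∑ E : orbitRel.Quotient G L, ff inc (1 : G →* ℤˣ) C E.out * (sz E : ℤ) *
          ff inc (1 : G →* ℤˣ) C' E.out = (if C = C' then (n : ℤ) * (sz C : ℤ) else 0) +
            (la : ℤ) * ((sz C : ℤ) * (sz C' : ℤ)) := by
        rw [← h3]
        exact sum_congr rfl fun E _ => by ring
      rw [h4]
      split_ifs <;> ring
    · simp only [bx, px, Sum.elim_inl, Sum.elim_inr, reduceCtorEq, if_false, mul_zero]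
      rw [← sum_mul, h1]
      ring
  · rcases j with C' | j
    · simp only [bx, px, Sum.elim_inl, Sum.elim_inr, reduceCtorEq, if_false, mul_zero]
      have h4 : ∑ E : orbitRel.Quotient G L, (la : ℤ) * (sz E : ℤ) *
          ff inc (1 : G →* ℤˣ) C' E.out = (la : ℤ) * ((sz C' : ℤ) * ((n : ℤ) + la)) := by
        rw [← h1, mul_sum]
        exact sum_congr rfl fun E _ => by ring
      rw [h4]
      ring
    · simp only [bx, px, Sum.elim_inl, Sum.elim_inr, if_true]
      have h4 : ∑ E : orbitRel.Quotient G L, (la : ℤ) * (sz E : ℤ) * (la : ℤ) =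
          (la : ℤ) * la * Fintype.card L := by
        have h5 := hF (fun _ => (1 : ℤ)) (fun _ _ => rfl)
        rw [sum_const, card_univ, nsmul_eq_mul, mul_one] at h5
        rw [← h5, mul_sum]
        exact sum_congr rfl fun E _ => by ring
      have h6 := des_sq D
      rw [h4]
      linear_combination (-(la : ℤ)) * h6

open Classical in
/-- the trivial character -/
theorem quad_triv [Nonempty P] [Nonempty L]
    (hinc : ∀ (g : G) (p : P) (l : L), inc (g • p) (g • l) ↔ inc p l)
    {n la : ℕ} (D : Des inc n la) {p : ℕ} (hp : p.Prime) (hla : ¬ p ∣ la)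
    (hsz : ∀ C : orbitRel.Quotient G P, ¬ p ∣ sz C)
    (hsz' : ∀ C : orbitRel.Quotient G L, ¬ p ∣ sz C)
    {a u : ℕ} (ha : Odd a) (hu : ¬ p ∣ u) (hN : n = p ^ a * u) :
    ∃ t, Fintype.card (orbitRel.Quotient G P) + 1 = 2 * t ∧
      IsSquare ((-1) ^ t * (((∏ C : orbitRel.Quotient G P, (sz C : ℤ)) * -(la : ℤ) : ℤ) :
        ZMod p)) := by
  have hn0 : (n : ℤ) ≠ 0 := by exact_mod_cast D.npos.ne'
  have hla0 : la ≠ 0 := by rintro rfl; exact hla (dvd_zero p)
  have hdet : ∀ {X : Type} [Fintype X] [MulAction G X], (Matrix.diagonal (px G X la)).det =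
      (∏ C : orbitRel.Quotient G X, (sz C : ℤ)) * -(la : ℤ) := by
    intro X _ _
    rw [Matrix.det_diagonal, Fintype.prod_sum_type]
    simp [px]
  have hle : ∀ {X Y : Type} [Fintype X] [Fintype Y] [MulAction G X] [MulAction G Y] [Nonempty X]
      {inc : X → Y → Prop} (_ : ∀ (g : G) (p : X) (l : Y), inc (g • p) (g • l) ↔ inc p l)
      (_ : Des inc n la), Fintype.card (orbitRel.Quotient G X ⊕ Unit) ≤
        Fintype.card (orbitRel.Quotient G Y ⊕ Unit) := by
    intro X Y _ _ _ _ _ inc hinc D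
    apply card_le_of_det (bx G inc n la * Matrix.diagonal (px G Y la)) (bx G inc n la).transpose
    rw [bx_gram hinc D, Matrix.det_smul, hdet]
    refine mul_ne_zero (pow_ne_zero _ hn0) (mul_ne_zero (Finset.prod_ne_zero_iff.2 fun C _ => ?_)
      (neg_ne_zero.2 (by exact_mod_cast hla0)))
    have := sz_pos C
    exact_mod_cast this.ne'
  have hcard : Fintype.card (orbitRel.Quotient G P ⊕ Unit) =
      Fintype.card (orbitRel.Quotient G L ⊕ Unit) :=
    le_antisymm (hle hinc D) (hle (inc := fun (l : L) (x : P) => inc x l)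
      (fun g l x => hinc g x l) (des_dual D))
  let ε : (orbitRel.Quotient G P ⊕ Unit) ≃ (orbitRel.Quotient G L ⊕ Unit) :=
    Fintype.equivOfCardEq hcard
  let B : Matrix (orbitRel.Quotient G P ⊕ Unit) (orbitRel.Quotient G P ⊕ Unit) ℤ :=
    (bx G inc n la).submatrix id ε
  have k1 := bx_gram hinc D
  have k3 : B * (Matrix.diagonal (px G L la)).submatrix ε ε * B.transpose =
      (n : ℤ) • Matrix.diagonal (px G P la) := by
    rw [← k1]
    have h1 : B.transpose = (bx G inc n la).transpose.submatrix ε id := rfl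
    rw [h1, Matrix.submatrix_mul_equiv, Matrix.submatrix_mul_equiv, Matrix.submatrix_id_id]
  have hd : ∀ {X : Type} [Fintype X] [MulAction G X], (∀ C : orbitRel.Quotient G X, ¬ p ∣ sz C) →
      ¬ (p : ℤ) ∣ (∏ C : orbitRel.Quotient G X, (sz C : ℤ)) * -(la : ℤ) := by
    intro X _ _ h h1
    rcases (Nat.prime_iff_prime_int.1 hp).dvd_or_dvd h1 with h2 | h2
    · exact prime_prod hp univ _ (fun C _ => h C) h2
    · rw [dvd_neg] at h2
      exact hla (by exact_mod_cast h2)
  have dP : ¬ (p : ℤ) ∣ (Matrix.diagonal (px G P la)).det := by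
    rw [hdet]
    exact hd hsz
  have dL : ¬ (p : ℤ) ∣ ((Matrix.diagonal (px G L la)).submatrix ε ε).det := by
    rw [Matrix.det_submatrix_equiv_self, hdet]
    exact hd hsz'
  obtain ⟨t, h1, h2⟩ := Pool.Agent.W825.KV.simil_odd B
    ((Matrix.diagonal (px G L la)).submatrix ε ε) (Matrix.diagonal (px G P la)) (n : ℤ) p hp
    (by rw [Matrix.transpose_submatrix, Matrix.diagonal_transpose])
    (Matrix.diagonal_transpose _) k3 ha (u := (u : ℤ)) (by exact_mod_cast hu)
    (by rw [hN]; push_cast; ring) dL dP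
  refine ⟨t, ?_, ?_⟩
  · rw [← h1, Fintype.card_sum, Fintype.card_unit]
  · rw [hdet] at h2
    exact h2

end quad

end Pool.Agent.TH905.PC
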