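import Mathlib
import Pool.Agent.TH905.PC.Par
import Pool.Agent.TH905.PC.Quad
import Pool.Agent.TH905.PC.Dens
import Pool.Agent.H634R3.PPC.Plane

set_option autoImplicit false

/-!
# Assembly
-/

namespace Pool.Agent.TH905.PC

open Finset MulAction Pool.Agent.H634R3.PPC Configuration Configuration.ProjectivePlane Filter
  Topology

/-- the quadratic condition at all primes which divide `n` exactly once -/
theorem square_of {M n : ℕ} (hn : ArOK M n) {Q : ℕ} (hQ : Q ≠ 0)
    (hQM : ∀ q : ℕ, q.Prime → q ∣ Q → q ∣ M) (t : ℕ)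
    (h : ∀ p : ℕ, p.Prime → ¬ p ∣ M → p ∣ n → ¬ p ^ 2 ∣ n →
      IsSquare ((-1) ^ t * (Q : ZMod p))) : Even t ∧ IsSquare Q := by
  obtain ⟨d, s, hds, hsq⟩ := Nat.sq_mul_squarefree Q
  have hd0 : d ≠ 0 := hsq.ne_zero
  have hs0 : s ≠ 0 := by
    rintro rfl
    apply hQ
    rw [← hds]
    ring
  have hdM : d ∣ M := by
    rw [← Nat.prod_primeFactors_of_squarefree hsq]
    apply Finset.prod_primes_dvd
    · intro q hq
      exact Nat.prime_iff.1 (Nat.prime_of_mem_primeFactors hq)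
    · intro q hq
      apply hQM q (Nat.prime_of_mem_primeFactors hq)
      rw [← hds]
      exact (Nat.dvd_of_mem_primeFactors hq).mul_left _
  set D : ℤ := (-1) ^ t * d with hD
  have hDa : D.natAbs = d := by
    rw [hD, Int.natAbs_mul, Int.natAbs_pow]
    simp
  have hsqD : IsSquare D := by
    by_contra hns
    obtain ⟨p, hp, hpM, hpn, hpn2, hp3⟩ := hn.2 D (by rw [hDa]; exact hdM) hns
    have : Fact p.Prime := ⟨hp⟩
    apply hp3
    obtain ⟨r, hr⟩ := h p hp hpM hpn hpn2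
    have hs : (s : ZMod p) ≠ 0 := by
      intro h0
      rw [ZMod.natCast_eq_zero_iff] at h0
      apply hpM
      apply hQM p hp
      rw [← hds]
      exact (h0.trans (dvd_pow_self s (by norm_num))).mul_right d
    refine ⟨r / s, ?_⟩
    have e1 : (Q : ZMod p) = (s : ZMod p) ^ 2 * d := by
      rw [← hds]; push_cast; ring
    rw [e1] at hr
    rw [hD]
    push_cast
    field_simp
    linear_combination hr
  obtain ⟨r, hr⟩ := hsqD
  have hdpos : (0 : ℤ) < d := by exact_mod_cast Nat.pos_of_ne_zero hd0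
  have ht : Even t := by
    by_contra ht
    rw [Nat.not_even_iff_odd] at ht
    rw [hD, ht.neg_one_pow] at hr
    have := mul_self_nonneg r
    linarith
  refine ⟨ht, ?_⟩
  rw [hD, ht.neg_one_pow, one_mul] at hr
  have h1 : d = r.natAbs * r.natAbs := by
    have := congrArg Int.natAbs hr
    rw [Int.natAbs_natCast, Int.natAbs_mul] at this
    exact this
  exact ⟨s * r.natAbs, by rw [← hds, h1]; ring⟩

/-- all prime divisors of the order of `G` divide `M` -/
def PG (M : ℕ) (G : Type) : Prop := ∀ q : ℕ, q.Prime → q ∣ Nat.card G → q ∣ M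

/-- characters of order two with values in the integers -/
theorem real_char {G : Type} [Group G] (χ : G →* ℂˣ) (h : χ ^ 2 = 1) :
    ∃ χ' : G →* ℤˣ, χ'.ker = χ.ker := by
  classical
  have h1 : ∀ g, χ g = 1 ∨ χ g = -1 := by
    intro g
    have h2 : (χ g) ^ 2 = 1 := by
      have := congrArg (fun f : G →* ℂˣ => f g) h
      simpa using this
    have h3 : ((χ g : ℂˣ) : ℂ) ^ 2 = 1 := by
      rw [← Units.val_pow_eq_pow_val, h2, Units.val_one]
    rw [pow_two] at h3
    rcases mul_self_eq_one_iff.1 h3 with h4 | h4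
    · left; exact Units.ext h4
    · right; exact Units.ext (by rw [h4]; simp)
  have hne : (-1 : ℂˣ) ≠ 1 := by
    intro h2
    have h3 := congrArg (fun u : ℂˣ => (u : ℂ)) h2
    simp only [Units.val_neg, Units.val_one] at h3
    norm_num at h3
  refine ⟨MonoidHom.mk' (fun g => if χ g = 1 then 1 else -1) ?_, ?_⟩
  · intro g k
    rw [map_mul]
    rcases h1 g with h2 | h2 <;> rcases h1 k with h3 | h3 <;> rw [h2, h3] <;> simp [hne]
  · ext g
    rw [MonoidHom.mem_ker, MonoidHom.mem_ker, MonoidHom.mk'_apply]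
    constructor
    · intro h2
      by_contra h3
      rw [if_neg h3] at h2
      exact absurd h2 (by decide)
    · intro h2
      rw [if_pos h2]

section plane

variable {P L : Type} [Membership P L] [ProjectivePlane P L] [Fintype P] [Fintype L]

theorem plane_des : Des (fun (p : P) (l : L) => p ∈ l) (order P L) 1 where
  row := card_common_lines
  col := card_common_points
  card := by rw [card_points P L, card_lines P L]
  npos := (one_lt_order P L).le

variable {G : Type} [Group G] [Finite G] [MulAction G P] [MulAction G L]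

theorem exact_dvd {n p : ℕ} (h1 : p ∣ n) (h2 : ¬ p ^ 2 ∣ n) : ∃ u, ¬ p ∣ u ∧ n = p ^ 1 * u := by
  obtain ⟨u, rfl⟩ := h1
  refine ⟨u, ?_, by ring⟩
  rintro ⟨w, rfl⟩
  exact h2 ⟨w, by ring⟩

theorem not_dvd_sz {X : Type} [Fintype X] [MulAction G X] {M : ℕ} (hG : PG M G)
    {p : ℕ} (hp : p.Prime) (hpM : ¬ p ∣ M) (C : orbitRel.Quotient G X) : ¬ p ∣ sz C :=
  fun h => hpM (hG p hp (h.trans (sz_dvd C)))

/-- nontrivial characters -/
theorem plane_even (hinc : ∀ (g : G) (p : P) (l : L), g • p ∈ g • l ↔ p ∈ l) {M : ℕ} (hM : M ≠ 0)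
    (hG : PG M G) (hn : ArOK M (order P L)) {χ : G →* ℂˣ} (hχ : χ ≠ 1) (hχM : χ ^ M = 1) :
    Even (Fintype.card (Od χ.ker P)) := by
  obtain ⟨⟨p, hp, hpM, h1, h2⟩, -⟩ := hn
  obtain ⟨u, hu, hN⟩ := exact_dvd h1 h2
  have hpM' : ¬ p ∣ M := by
    intro h
    have h1 : p ∣ p + 1 := h.trans hpM
    have h2 : p ∣ 1 := (Nat.dvd_add_right dvd_rfl).1 h1
    exact hp.one_lt.ne' (Nat.dvd_one.1 h2)
  exact even_mult (inc := fun (p : P) (l : L) => p ∈ l) hinc plane_des hM χ hχ
    (fun g => by simpa using congrArg (fun f : G →* ℂˣ => f g) hχM) hp hpM (not_dvd_sz hG hp hpM')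
    (not_dvd_sz hG hp hpM') odd_one hu hN

/-- real nontrivial characters -/
theorem plane_four (hinc : ∀ (g : G) (p : P) (l : L), g • p ∈ g • l ↔ p ∈ l) {M : ℕ}
    (hG : PG M G) (hn : ArOK M (order P L)) {χ : G →* ℂˣ} (hχ : χ ≠ 1)
    (hχ2 : χ ^ 2 = 1) :
    4 ∣ Fintype.card (Od χ.ker P) ∧ IsSquare (∏ C : Od χ.ker P, sz C.1) := by
  obtain ⟨χ', hk⟩ := real_char χ hχ2
  have hχ' : χ' ≠ 1 := by
    intro h
    apply hχ
    rw [← MonoidHom.ker_eq_top_iff] at h ⊢
    rw [← hk, h]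
  rw [← hk]
  have key : ∀ p : ℕ, p.Prime → ¬ p ∣ M → p ∣ order P L → ¬ p ^ 2 ∣ order P L →
      ∃ t, Fintype.card (Od χ'.ker P) = 2 * t ∧
      IsSquare ((-1) ^ t * (((∏ C : Od χ'.ker P, (sz C.1 : ℤ) : ℤ)) : ZMod p)) := by
    intro p hp hpM h1 h2
    obtain ⟨u, hu, hN⟩ := exact_dvd h1 h2
    exact quad_nontriv (inc := fun (p : P) (l : L) => p ∈ l) hinc plane_des hχ' hp
      (not_dvd_sz hG hp hpM) (not_dvd_sz hG hp hpM) odd_one hu hN
  obtain ⟨p0, hp0, hpM0, h10, h20⟩ := hn.1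
  have hpM0' : ¬ p0 ∣ M := by
    intro h
    have h1 : p0 ∣ p0 + 1 := h.trans hpM0
    have h2 : p0 ∣ 1 := (Nat.dvd_add_right dvd_rfl).1 h1
    exact hp0.one_lt.ne' (Nat.dvd_one.1 h2)
  obtain ⟨t, ht, -⟩ := key p0 hp0 hpM0' h10 h20
  have h3 := square_of hn (Q := ∏ C : Od χ'.ker P, sz C.1)
    (Finset.prod_ne_zero_iff.2 fun C _ => (sz_pos C.1).ne') (by
      intro q hq hqQ
      obtain ⟨C, -, hC⟩ := (Prime.dvd_finsetProd_iff (Nat.prime_iff.1 hq) _).1 hqQ
      exact hG q hq (hC.trans (sz_dvd C.1))) t (by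
      intro p hp hpM h1 h2
      obtain ⟨t', ht', hs⟩ := key p hp hpM h1 h2
      have : t' = t := by omega
      subst this
      push_cast at hs ⊢
      exact hs)
  obtain ⟨k, hk2⟩ := h3.1
  exact ⟨⟨k, by omega⟩, h3.2⟩

open Classical in
/-- the trivial character -/
theorem plane_one (hinc : ∀ (g : G) (p : P) (l : L), g • p ∈ g • l ↔ p ∈ l) {M : ℕ}
    (hG : PG M G) (hn : ArOK M (order P L)) :
    Fintype.card (orbitRel.Quotient G P) % 4 = 1 ∧
      IsSquare (∏ C : orbitRel.Quotient G P, sz C) := by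
  have : Nonempty P := Fintype.card_pos_iff.1 (by rw [card_points P L]; positivity)
  have : Nonempty L := Fintype.card_pos_iff.1 (by rw [card_lines P L]; positivity)
  have key : ∀ p : ℕ, p.Prime → ¬ p ∣ M → p ∣ order P L → ¬ p ^ 2 ∣ order P L →
      ∃ t, Fintype.card (orbitRel.Quotient G P) + 1 = 2 * t ∧
      IsSquare ((-1) ^ t * (((∏ C : orbitRel.Quotient G P, (sz C : ℤ)) * -((1 : ℕ) : ℤ) : ℤ) :
        ZMod p)) := by
    intro p hp hpM h1 h2
    obtain ⟨u, hu, hN⟩ := exact_dvd h1 h2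
    exact quad_triv (inc := fun (p : P) (l : L) => p ∈ l) hinc plane_des hp
      (by rw [Nat.dvd_one]; exact hp.ne_one)
      (not_dvd_sz hG hp hpM) (not_dvd_sz hG hp hpM) odd_one hu hN
  obtain ⟨p0, hp0, hpM0, h10, h20⟩ := hn.1
  have hpM0' : ¬ p0 ∣ M := by
    intro h
    have h1 : p0 ∣ p0 + 1 := h.trans hpM0
    have h2 : p0 ∣ 1 := (Nat.dvd_add_right dvd_rfl).1 h1
    exact hp0.one_lt.ne' (Nat.dvd_one.1 h2)
  obtain ⟨t, ht, -⟩ := key p0 hp0 hpM0' h10 h20
  have h3 := square_of hn (Q := ∏ C : orbitRel.Quotient G P, sz C)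
    (Finset.prod_ne_zero_iff.2 fun C _ => (sz_pos C).ne') (by
      intro q hq hqQ
      obtain ⟨C, -, hC⟩ := (Prime.dvd_finsetProd_iff (Nat.prime_iff.1 hq) _).1 hqQ
      exact hG q hq (hC.trans (sz_dvd C))) (t + 1) (by
      intro p hp hpM h1 h2
      obtain ⟨t', ht', hs⟩ := key p hp hpM h1 h2
      have : t' = t := by omega
      subst this
      push_cast at hs ⊢
      rw [pow_succ]
      have e : (-1 : ZMod p) ^ t' * -1 * ∏ C : orbitRel.Quotient G P, (sz C : ZMod p) =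
          (-1) ^ t' * ((∏ C : orbitRel.Quotient G P, (sz C : ZMod p)) * -1) := by ring
      rw [e]
      exact hs)
  obtain ⟨k, hk2⟩ := h3.1
  exact ⟨by omega, h3.2⟩

end plane

/-! ### Orbits as sets -/

section sets

variable {G : Type} [Group G] {P : Type} [MulAction G P]

/-- the orbits on which the stabilizers are contained in `K` -/
def orbs (P : Type) [MulAction G P] (K : Subgroup G) : Set (Set P) :=
  {O | ∃ x : P, O = MulAction.orbit G x ∧ ∀ y ∈ O, ∀ g : G, g • y = y → g ∈ K}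

/-- the orbit as a set -/
def oset (C : orbitRel.Quotient G P) : Set P := {x | cl G x = C}

theorem oset_inj : Function.Injective (oset : orbitRel.Quotient G P → Set P) := by
  intro C C' h
  obtain ⟨x, rfl⟩ := cl_surj C
  have h1 : x ∈ oset C' := by rw [← h]; exact rfl
  exact h1

theorem oset_cl (x : P) : oset (cl G x) = MulAction.orbit G x := by
  ext y
  constructor
  · intro h
    obtain ⟨g, hg⟩ := cl_eq.1 h
    exact ⟨g, hg⟩
  · rintro ⟨g, hg⟩
    exact cl_eq.2 ⟨g, hg⟩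

theorem orbs_eq (K : Subgroup G) :
    orbs P K = Set.range (fun C : Od K P => oset C.1) := by
  ext O
  constructor
  · rintro ⟨x, rfl, h⟩
    refine ⟨⟨cl G x, ?_⟩, oset_cl x⟩
    intro y hy g hg
    apply h y _ g hg
    rw [← oset_cl]
    exact hy
  · rintro ⟨⟨C, hC⟩, rfl⟩
    obtain ⟨x, rfl⟩ := cl_surj C
    refine ⟨x, oset_cl x, ?_⟩
    intro y hy g hg
    exact hC y hy g hg

variable [Fintype P]

theorem oset_ncard (C : orbitRel.Quotient G P) : (oset C).ncard = sz C := by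
  classical
  unfold sz oset
  rw [← Set.ncard_coe_finset]
  congr 1
  ext x
  simp

theorem orbs_ncard (K : Subgroup G) : (orbs P K).ncard = Fintype.card (Od K P) := by
  rw [orbs_eq, ← Set.image_univ, Set.ncard_image_of_injective, Set.ncard_univ,
    Nat.card_eq_fintype_card]
  intro C C' h
  exact Subtype.ext (oset_inj h)

theorem orbs_prod (K : Subgroup G) : ∏ᶠ O ∈ orbs P K, O.ncard = ∏ C : Od K P, sz C.1 := by
  rw [orbs_eq, finprod_mem_range (fun C C' h => Subtype.ext (oset_inj h)),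
    finprod_eq_prod_of_fintype]
  exact prod_congr rfl fun C _ => oset_ncard _

end sets

open Classical in
/-- **The statement for a single plane.** -/
theorem plane_main {P L : Type} [Membership P L] [ProjectivePlane P L] [Fintype P] [Fintype L]
    {G : Type} [Group G] [Finite G] [MulAction G P] [MulAction G L]
    (hinc : ∀ (g : G) (p : P) (l : L), g • p ∈ g • l ↔ p ∈ l) {M : ℕ} (hM : M ≠ 0)
    (hG : PG M G) (hn : ArOK M (order P L)) (χ : G →* ℂˣ) :
    (χ ^ M = 1 → (orbs P χ.ker).ncard % 2 = (if χ = 1 then 1 else 0)) ∧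
      (χ ^ 2 = 1 → (orbs P χ.ker).ncard % 4 = (if χ = 1 then 1 else 0) ∧
        IsSquare (∏ᶠ O ∈ orbs P χ.ker, O.ncard)) := by
  rw [orbs_ncard, orbs_prod]
  by_cases hχ : χ = 1
  · subst hχ
    obtain ⟨h1, h2⟩ := plane_one hinc hG hn
    have hgd : ∀ C : orbitRel.Quotient G P, Gd (1 : G →* ℂˣ).ker C := fun _ _ _ _ _ => rfl
    let e : Od (1 : G →* ℂˣ).ker P ≃ orbitRel.Quotient G P := Equiv.subtypeUnivEquiv hgd
    have h3 : Fintype.card (Od (1 : G →* ℂˣ).ker P) = Fintype.card (orbitRel.Quotient G P) :=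
      Fintype.card_congr e
    have h4 : ∏ C : Od (1 : G →* ℂˣ).ker P, sz C.1 = ∏ C : orbitRel.Quotient G P, sz C :=
      Fintype.prod_equiv e _ _ (fun _ => rfl)
    rw [if_pos rfl, h3, h4]
    exact ⟨fun _ => by omega, fun _ => ⟨h1, h2⟩⟩
  · rw [if_neg hχ]
    refine ⟨fun hχM => Nat.even_iff.1 (plane_even hinc hM hG hn hχ hχM), fun hχ2 => ?_⟩
    obtain ⟨h1, h2⟩ := plane_four hinc hG hn hχ hχ2
    exact ⟨Nat.dvd_iff_mod_eq_zero.1 h1, h2⟩

end Pool.Agent.TH905.PC
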