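import Mathlib
import Pool.Agent.TH905.PC.Fin
import Pool.Agent.H951R4.OD.Design

set_option autoImplicit false

/-!
# Symmetric designs
-/

namespace Pool.Agent.TH905.PC

open Finset MulAction Pool.Agent.H634R3.PPC Filter Topology Pool.Agent.H951R4.OD

section gen

variable {G : Type} [Group G] [Finite G] {P L : Type} [Fintype P] [Fintype L] [MulAction G P]
  [MulAction G L] {inc : P → L → Prop}

/-- nontrivial characters -/
theorem des_even (hinc : ∀ (g : G) (p : P) (l : L), inc (g • p) (g • l) ↔ inc p l)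
    {n la : ℕ} (D : Des inc n la) {M : ℕ} (hM : M ≠ 0)
    (hG : PG M G) (hn : ArOK M n) {χ : G →* ℂˣ} (hχ : χ ≠ 1) (hχM : χ ^ M = 1) :
    Even (Fintype.card (Od χ.ker P)) := by
  obtain ⟨⟨p, hp, hpM, h1, h2⟩, -⟩ := hn
  obtain ⟨u, hu, hN⟩ := exact_dvd h1 h2
  have hpM' : ¬ p ∣ M := by
    intro h
    have h1 : p ∣ p + 1 := h.trans hpM
    have h2 : p ∣ 1 := (Nat.dvd_add_right dvd_rfl).1 h1
    exact hp.one_lt.ne' (Nat.dvd_one.1 h2)
  exact even_mult hinc D hM χ hχ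
    (fun g => by simpa using congrArg (fun f : G →* ℂˣ => f g) hχM) hp hpM (not_dvd_sz hG hp hpM')
    (not_dvd_sz hG hp hpM') odd_one hu hN

/-- real nontrivial characters -/
theorem des_four (hinc : ∀ (g : G) (p : P) (l : L), inc (g • p) (g • l) ↔ inc p l)
    {n la : ℕ} (D : Des inc n la) {M : ℕ}
    (hG : PG M G) (hn : ArOK M n) {χ : G →* ℂˣ} (hχ : χ ≠ 1)
    (hχ2 : χ ^ 2 = 1) :
    4 ∣ Fintype.card (Od χ.ker P) ∧ IsSquare (∏ C : Od χ.ker P, sz C.1) := by
  obtain ⟨χ', hk⟩ := real_char χ hχ2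
  have hχ' : χ' ≠ 1 := by
    intro h
    apply hχ
    rw [← MonoidHom.ker_eq_top_iff] at h ⊢
    rw [← hk, h]
  rw [← hk]
  have key : ∀ p : ℕ, p.Prime → ¬ p ∣ M → p ∣ n → ¬ p ^ 2 ∣ n →
      ∃ t, Fintype.card (Od χ'.ker P) = 2 * t ∧
      IsSquare ((-1) ^ t * (((∏ C : Od χ'.ker P, (sz C.1 : ℤ) : ℤ)) : ZMod p)) := by
    intro p hp hpM h1 h2
    obtain ⟨u, hu, hN⟩ := exact_dvd h1 h2
    exact quad_nontriv hinc D hχ' hp
      (not_dvd_sz hG hp hpM) (not_dvd_sz hG hp hpM) odd_one hu hN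
  obtain ⟨p0, hp0, hpM0, h10, h20⟩ := hn.1
  have hpM0' : ¬ p0 ∣ M := by
    intro h
    have h1 : p0 ∣ p0 + 1 := h.trans hpM0
    have h2 : p0 ∣ 1 := (Nat.dvd_add_right dvd_rfl).1 h1
    exact hp0.one_lt.ne' (Nat.dvd_one.1 h2)
  obtain ⟨t, ht, -⟩ := key p0 hp0 hpM0' h10 h20
  have h3 := square_of hn (Q := ∏ C : Od χ'.ker P, sz C.1)
    (Finset.prod_ne_zero_iff.2 fun C _ => (sz_pos C.1).ne') (by
      intro q hq hqQ
      obtain ⟨C, -, hC⟩ := (Prime.dvd_finsetProd_iff (Nat.prime_iff.1 hq) _).1 hqQ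
      exact hG q hq (hC.trans (sz_dvd C.1))) t (by
      intro p hp hpM h1 h2
      obtain ⟨t', ht', hs⟩ := key p hp hpM h1 h2
      have : t' = t := by omega
      subst this
      push_cast at hs ⊢
      exact hs)
  obtain ⟨k, hk2⟩ := h3.1
  exact ⟨⟨k, by omega⟩, h3.2⟩

open Classical in
/-- the trivial character -/
theorem des_one [Nonempty P] [Nonempty L]
    (hinc : ∀ (g : G) (p : P) (l : L), inc (g • p) (g • l) ↔ inc p l)
    {n la : ℕ} (D : Des inc n la) {M : ℕ} (hla0 : la ≠ 0)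
    (hG : PG M G) (hn : ArOK M n) (hla : ∀ q : ℕ, q.Prime → q ∣ la → q ∣ M) :
    Fintype.card (orbitRel.Quotient G P) % 4 = 1 ∧
      IsSquare (la * ∏ C : orbitRel.Quotient G P, sz C) := by
  have key : ∀ p : ℕ, p.Prime → ¬ p ∣ M → p ∣ n → ¬ p ^ 2 ∣ n →
      ∃ t, Fintype.card (orbitRel.Quotient G P) + 1 = 2 * t ∧
      IsSquare ((-1) ^ t * (((∏ C : orbitRel.Quotient G P, (sz C : ℤ)) * -(la : ℤ) : ℤ) :
        ZMod p)) := by
    intro p hp hpM h1 h2
    obtain ⟨u, hu, hN⟩ := exact_dvd h1 h2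
    exact quad_triv hinc D hp
      (fun h => hpM (hla p hp h))
      (not_dvd_sz hG hp hpM) (not_dvd_sz hG hp hpM) odd_one hu hN
  obtain ⟨p0, hp0, hpM0, h10, h20⟩ := hn.1
  have hpM0' : ¬ p0 ∣ M := by
    intro h
    have h1 : p0 ∣ p0 + 1 := h.trans hpM0
    have h2 : p0 ∣ 1 := (Nat.dvd_add_right dvd_rfl).1 h1
    exact hp0.one_lt.ne' (Nat.dvd_one.1 h2)
  obtain ⟨t, ht, -⟩ := key p0 hp0 hpM0' h10 h20
  have h3 := square_of hn (Q := la * ∏ C : orbitRel.Quotient G P, sz C)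
    (mul_ne_zero hla0 (Finset.prod_ne_zero_iff.2 fun C _ => (sz_pos C).ne')) (by
      intro q hq hqQ
      rcases (Nat.Prime.dvd_mul hq).1 hqQ with hqQ | hqQ
      · exact hla q hq hqQ
      obtain ⟨C, -, hC⟩ := (Prime.dvd_finsetProd_iff (Nat.prime_iff.1 hq) _).1 hqQ
      exact hG q hq (hC.trans (sz_dvd C))) (t + 1) (by
      intro p hp hpM h1 h2
      obtain ⟨t', ht', hs⟩ := key p hp hpM h1 h2
      have : t' = t := by omega
      subst this
      push_cast at hs ⊢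
      rw [pow_succ]
      have e : (-1 : ZMod p) ^ t' * -1 * (la * ∏ C : orbitRel.Quotient G P, (sz C : ZMod p)) =
          (-1) ^ t' * ((∏ C : orbitRel.Quotient G P, (sz C : ZMod p)) * -la) := by ring
      rw [e]
      exact hs)
  obtain ⟨k, hk2⟩ := h3.1
  exact ⟨by omega, h3.2⟩



theorem triv_PG (M : ℕ) : PG M (Unit) := by
  intro q hq h
  rw [Nat.card_unique] at h
  exact absurd (Nat.dvd_one.1 h) hq.ne_one

open Classical in
/-- **The statement for a single design.** -/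
theorem des_main [Nonempty P] [Nonempty L]
    (hinc : ∀ (g : G) (p : P) (l : L), inc (g • p) (g • l) ↔ inc p l)
    {n la : ℕ} (D : Des inc n la) {M : ℕ} (hM : M ≠ 0) (hla0 : la ≠ 0) (hG : PG M G)
    (hn : ArOK (M * la) n) (hsq : IsSquare la) (χ : G →* ℂˣ) :
    (χ ^ M = 1 → (orbs P χ.ker).ncard % 2 = (if χ = 1 then 1 else 0)) ∧
      (χ ^ 2 = 1 → (orbs P χ.ker).ncard % 4 = (if χ = 1 then 1 else 0) ∧
        IsSquare (∏ᶠ O ∈ orbs P χ.ker, O.ncard)) := by
  have hG' : PG (M * la) G := fun q hq h => (hG q hq h).mul_right la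
  rw [orbs_ncard, orbs_prod]
  by_cases hχ : χ = 1
  · subst hχ
    obtain ⟨h1, h2⟩ := des_one hinc D hla0 hG' hn (fun q _ h => h.mul_left M)
    have hgd : ∀ C : orbitRel.Quotient G P, Gd (1 : G →* ℂˣ).ker C := fun _ _ _ _ _ => rfl
    let e : Od (1 : G →* ℂˣ).ker P ≃ orbitRel.Quotient G P := Equiv.subtypeUnivEquiv hgd
    have h3 : Fintype.card (Od (1 : G →* ℂˣ).ker P) = Fintype.card (orbitRel.Quotient G P) :=
      Fintype.card_congr e
    have h4 : ∏ C : Od (1 : G →* ℂˣ).ker P, sz C.1 = ∏ C : orbitRel.Quotient G P, sz C :=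
      Fintype.prod_equiv e _ _ (fun _ => rfl)
    rw [if_pos rfl, h3, h4]
    refine ⟨fun _ => by omega, fun _ => ⟨h1, ?_⟩⟩
    obtain ⟨a, ha⟩ := hsq
    obtain ⟨b, hb⟩ := h2
    have ha0 : a ≠ 0 := by rintro rfl; exact hla0 (by rw [ha])
    have hab : a ∣ b := by
      have h5 : a ^ 2 ∣ b ^ 2 := ⟨∏ C : orbitRel.Quotient G P, sz C, by
        rw [pow_two b, ← hb, ha]; ring⟩
      exact (Nat.pow_dvd_pow_iff (by norm_num)).1 h5
    obtain ⟨c, rfl⟩ := hab
    refine ⟨c, ?_⟩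
    have h6 : (a * a) * ∏ C : orbitRel.Quotient G P, sz C = (a * a) * (c * c) := by
      calc (a * a) * ∏ C : orbitRel.Quotient G P, sz C
          = la * ∏ C : orbitRel.Quotient G P, sz C := by rw [← ha]
        _ = a * c * (a * c) := hb
        _ = _ := by ring
    exact Nat.eq_of_mul_eq_mul_left (Nat.pos_of_ne_zero (mul_ne_zero ha0 ha0)) h6
  · rw [if_neg hχ]
    refine ⟨fun hχM => Nat.even_iff.1 (des_even hinc D (mul_ne_zero hM hla0) hG' hn hχ
      (by
        ext g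
        have h1 := congrArg (fun f : G →* ℂˣ => f g) hχM
        simp only [MonoidHom.pow_apply, MonoidHom.one_apply] at h1
        rw [MonoidHom.pow_apply, pow_mul, h1, one_pow]
        rfl)), fun hχ2 => ?_⟩
    obtain ⟨h1, h2⟩ := des_four hinc D hG' hn hχ hχ2
    exact ⟨Nat.dvd_iff_mod_eq_zero.1 h1, h2⟩

end gen

/-! ### Designs on `Fin v` (`des_of`, `Blk`, `pairs`: from the starting file H634R3.WG.Lam) -/

theorem des_of {v k lam : ℕ} {B : Fin v → Finset (Fin v)} (hv : 2 ≤ v) (hlam : 1 ≤ lam)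
    (hkv : k < v) (hk : ∀ i, (B i).card = k)
    (hp : ∀ x y : Fin v, x ≠ y →
      (Finset.univ.filter (fun i => x ∈ B i ∧ y ∈ B i)).card = lam) :
    Des (fun (x : Fin v) (i : Fin v) => x ∈ B i) (k - lam) lam := by
  classical
  obtain ⟨hlk, -, hint⟩ := design_facts hv hlam hkv hk hp
  obtain ⟨hr, -⟩ := repl v k lam hv hlam B hk hp
  refine ⟨?_, ?_, rfl, by omega⟩
  · intro x z
    by_cases hxz : x = z
    · subst hxz
      rw [if_pos rfl, Nat.sub_add_cancel hlk.le, ← hr x]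
      congr 1
      ext i
      simp
    · rw [if_neg hxz, zero_add, ← hp x z hxz]
      congr 1
      ext i
      simp
  · intro i j
    by_cases hij : i = j
    · subst hij
      rw [if_pos rfl, Nat.sub_add_cancel hlk.le, ← hk i]
      congr 1
      ext x
      simp
    · rw [if_neg hij, zero_add, ← hint i j hij]
      congr 1
      ext x
      simp

/-- the blocks -/
structure Blk (v : ℕ) where
  i : Fin v

/-- the blocks are the elements of `Fin v` -/
def blkEquiv (v : ℕ) : Blk v ≃ Fin v where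
  toFun b := b.i
  invFun i := ⟨i⟩
  left_inv _ := rfl
  right_inv _ := rfl

instance (v : ℕ) : Fintype (Blk v) := Fintype.ofEquiv (Fin v) (blkEquiv v).symm

theorem des_blk {v k lam : ℕ} {B : Fin v → Finset (Fin v)} (hv : 2 ≤ v) (hlam : 1 ≤ lam)
    (hkv : k < v) (hk : ∀ i, (B i).card = k)
    (hp : ∀ x y : Fin v, x ≠ y →
      (Finset.univ.filter (fun i => x ∈ B i ∧ y ∈ B i)).card = lam) :
    Des (fun (x : Fin v) (b : Blk v) => x ∈ B b.i) (k - lam) lam := by
  classical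
  have h := des_of hv hlam hkv hk hp
  refine ⟨?_, ?_, ?_, h.npos⟩
  · intro x z
    rw [← h.row x z]
    refine Finset.card_bij (fun b _ => b.i) ?_ ?_ ?_
    · intro b hb
      simpa using hb
    · rintro ⟨a⟩ _ ⟨b⟩ _ h1
      exact congrArg _ h1
    · intro b hb
      exact ⟨⟨b⟩, by simpa using hb, rfl⟩
  · rintro ⟨i⟩ ⟨j⟩
    rw [h.col i j]
    congr 1
    by_cases hij : i = j
    · subst hij
      rw [if_pos rfl, if_pos rfl]
    · rw [if_neg hij, if_neg (fun h => hij (congrArg Blk.i h))]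
  · exact (Fintype.card_congr (blkEquiv v)).symm

/-- the pairs of permutations (of points and of blocks) -/
def pairs {v : ℕ} (B : Fin v → Finset (Fin v)) (H : Subgroup (Equiv.Perm (Fin v))) :
    Subgroup (Equiv.Perm (Fin v) × Equiv.Perm (Fin v)) where
  carrier := {g | g.1 ∈ H ∧ ∀ x i, g.1 x ∈ B (g.2 i) ↔ x ∈ B i}
  mul_mem' := by
    rintro a b ⟨ha1, ha2⟩ ⟨hb1, hb2⟩
    refine ⟨H.mul_mem ha1 hb1, fun x i => ?_⟩
    show a.1 (b.1 x) ∈ B (a.2 (b.2 i)) ↔ _
    rw [ha2, hb2]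
  one_mem' := ⟨H.one_mem, fun x i => Iff.rfl⟩
  inv_mem' := by
    rintro a ⟨ha1, ha2⟩
    refine ⟨H.inv_mem ha1, fun x i => ?_⟩
    show a.1⁻¹ x ∈ B (a.2⁻¹ i) ↔ _
    rw [← ha2, Equiv.Perm.inv_def, Equiv.Perm.inv_def, Equiv.apply_symm_apply,
      Equiv.apply_symm_apply]

instance actP {v : ℕ} (B : Fin v → Finset (Fin v)) (H : Subgroup (Equiv.Perm (Fin v))) :
    MulAction (pairs B H) (Fin v) where
  smul g x := g.1.1 x
  one_smul _ := rfl
  mul_smul _ _ _ := rfl

instance actB {v : ℕ} (B : Fin v → Finset (Fin v)) (H : Subgroup (Equiv.Perm (Fin v))) :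
    MulAction (pairs B H) (Blk v) where
  smul g x := ⟨g.1.2 x.i⟩
  one_smul _ := rfl
  mul_smul _ _ _ := rfl

theorem blocks_inj {v k lam : ℕ} {B : Fin v → Finset (Fin v)} (hv : 2 ≤ v) (hlam : 1 ≤ lam)
    (hkv : k < v) (hk : ∀ i, (B i).card = k)
    (hp : ∀ x y : Fin v, x ≠ y →
      (Finset.univ.filter (fun i => x ∈ B i ∧ y ∈ B i)).card = lam) : Function.Injective B := by
  obtain ⟨hlk, -, hint⟩ := design_facts hv hlam hkv hk hp
  intro i j hij
  by_contra hne
  have h1 := hint i j hne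
  rw [← hij, Finset.inter_self, hk i] at h1
  omega

/-- the projection to the group of permutations of the points -/
def proj {v : ℕ} (B : Fin v → Finset (Fin v)) (H : Subgroup (Equiv.Perm (Fin v))) :
    pairs B H →* H where
  toFun g := ⟨g.1.1, g.2.1⟩
  map_one' := rfl
  map_mul' _ _ := rfl

theorem proj_inj {v : ℕ} {B : Fin v → Finset (Fin v)} (hinj : Function.Injective B)
    (H : Subgroup (Equiv.Perm (Fin v))) : Function.Injective (proj B H) := by
  intro a b hab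
  have h1 : a.1.1 = b.1.1 := congrArg Subtype.val hab
  apply Subtype.ext
  refine Prod.ext h1 ?_
  ext1 i
  apply hinj
  ext x
  have h2 := a.2.2 (a.1.1.symm x) i
  have h3 := b.2.2 (b.1.1.symm x) i
  rw [Equiv.apply_symm_apply] at h2 h3
  rw [h2, h3, h1]

theorem proj_surj {v : ℕ} {B : Fin v → Finset (Fin v)} (hinj : Function.Injective B)
    (H : Subgroup (Equiv.Perm (Fin v))) (haut : ∀ h ∈ H, ∀ i, ∃ j, (B i).image h = B j) :
    Function.Surjective (proj B H) := by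
  rintro ⟨h, hh⟩
  choose τ hτ using haut h hh
  have hτi : Function.Injective τ := by
    intro i j hij
    apply hinj
    have h1 := hτ i
    rw [hij, ← hτ j] at h1
    exact Finset.image_injective h.injective h1
  let τe : Equiv.Perm (Fin v) := Equiv.ofBijective τ (Finite.injective_iff_bijective.1 hτi)
  refine ⟨⟨(h, τe), hh, ?_⟩, rfl⟩
  intro z i
  show h z ∈ B (τ i) ↔ z ∈ B i
  rw [← hτ i, Finset.mem_image]
  constructor
  · rintro ⟨w, hw, hwz⟩
    rwa [← h.injective hwz]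
  · intro hz
    exact ⟨z, hz, rfl⟩

theorem orbs_proj {v : ℕ} {B : Fin v → Finset (Fin v)}
    {H : Subgroup (Equiv.Perm (Fin v))} (hs : Function.Surjective (proj B H)) (χ : H →* ℂˣ) :
    orbs (Fin v) (χ.comp (proj B H)).ker =
      {O : Set (Fin v) | ∃ x, O = MulAction.orbit H x ∧ ∀ y ∈ O, ∀ h : H, h • y = y → χ h = 1} := by
  have ho : ∀ x : Fin v, MulAction.orbit (pairs B H) x = MulAction.orbit H x := by
    intro x
    ext y
    constructor
    · rintro ⟨g, hg⟩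
      exact ⟨proj B H g, hg⟩
    · rintro ⟨h, hh⟩
      obtain ⟨g, rfl⟩ := hs h
      exact ⟨g, hh⟩
  ext O
  constructor
  · rintro ⟨x, hx, h1⟩
    refine ⟨x, by rw [hx, ho], fun y hy h hhy => ?_⟩
    obtain ⟨g, rfl⟩ := hs h
    exact h1 y hy g hhy
  · rintro ⟨x, hx, h1⟩
    exact ⟨x, by rw [hx, ho], fun y hy g hg => h1 y hy (proj B H g) hg⟩

open Classical in
/-- **Symmetric designs.** -/
theorem design_main {v k lam : ℕ} {B : Fin v → Finset (Fin v)} (hv : 2 ≤ v) (hlam : 1 ≤ lam)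
    (hkv : k < v) (hk : ∀ i, (B i).card = k)
    (hp : ∀ x y : Fin v, x ≠ y →
      (Finset.univ.filter (fun i => x ∈ B i ∧ y ∈ B i)).card = lam)
    {H : Subgroup (Equiv.Perm (Fin v))} (haut : ∀ h ∈ H, ∀ i, ∃ j, (B i).image h = B j)
    {M : ℕ} (hM : M ≠ 0) (hH : PG M H) (hn : ArOK (M * lam) (k - lam)) (χ : H →* ℂˣ)
    {S : Set (Set (Fin v))} (hS : S =
      {O : Set (Fin v) | ∃ x, O = MulAction.orbit H x ∧ ∀ y ∈ O, ∀ h : H, h • y = y → χ h = 1}) :
    (χ ^ M = 1 → S.ncard % 2 = (if χ = 1 then 1 else 0)) ∧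
      (χ ^ 2 = 1 → S.ncard % 4 = (if χ = 1 then 1 else 0) ∧ IsSquare (∏ᶠ O ∈ S, O.ncard)) := by
  have hinj := blocks_inj hv hlam hkv hk hp
  have hlam0 : lam ≠ 0 := by omega
  have : Nonempty (Fin v) := ⟨⟨0, by omega⟩⟩
  have : Nonempty (Blk v) := ⟨⟨⟨0, by omega⟩⟩⟩
  have D := des_blk hv hlam hkv hk hp
  -- `lam` is a square
  have hsq : IsSquare lam := by
    have h1 : Nat.card (pairs B (⊥ : Subgroup (Equiv.Perm (Fin v)))) = 1 := by
      have h2 := Nat.card_le_card_of_injective _ (proj_inj hinj (⊥ : Subgroup _))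
      have h4 : Nat.card (⊥ : Subgroup (Equiv.Perm (Fin v))) = 1 := Subgroup.card_bot
      have h3 : 0 < Nat.card (pairs B (⊥ : Subgroup (Equiv.Perm (Fin v)))) := Nat.card_pos
      omega
    have hbot : PG (M * lam) (pairs B (⊥ : Subgroup (Equiv.Perm (Fin v)))) := by
      intro q hq h
      rw [h1] at h
      exact absurd (Nat.dvd_one.1 h) hq.ne_one
    obtain ⟨-, h2⟩ := des_one (G := pairs B (⊥ : Subgroup (Equiv.Perm (Fin v))))
      (fun g x b => g.2.2 x b.i) D hlam0 hbot hn (fun q _ h => h.mul_left M)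
    have h3 : ∏ C : orbitRel.Quotient (pairs B (⊥ : Subgroup (Equiv.Perm (Fin v)))) (Fin v),
        sz C = 1 := by
      apply Finset.prod_eq_one
      intro C _
      have h4 := sz_dvd C
      rw [h1] at h4
      exact Nat.dvd_one.1 h4
    rw [h3, mul_one] at h2
    exact h2
  have hs := proj_surj hinj H haut
  have hPG : PG M (pairs B H) := by
    intro q hq h
    apply hH q hq
    rwa [← Nat.card_congr (Equiv.ofBijective _ ⟨proj_inj hinj H, hs⟩)]
  have key := des_main (G := pairs B H) (fun g x b => g.2.2 x b.i) D hM hlam0 hPG hn hsq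
    (χ.comp (proj B H))
  rw [orbs_proj hs, ← hS] at key
  have hpow : ∀ j : ℕ, χ ^ j = 1 → (χ.comp (proj B H)) ^ j = 1 := by
    intro j hj
    ext g
    have h1 := congrArg (fun f : H →* ℂˣ => f (proj B H g)) hj
    simp only [MonoidHom.pow_apply, MonoidHom.one_apply] at h1
    rw [MonoidHom.pow_apply, MonoidHom.comp_apply, h1]
    rfl
  have hone : χ.comp (proj B H) = 1 ↔ χ = 1 := by
    constructor
    · intro h
      ext x
      obtain ⟨g, rfl⟩ := hs x
      have h1 := congrArg (fun f : pairs B H →* ℂˣ => f g) h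
      simp only [MonoidHom.comp_apply] at h1
      rw [h1]
      rfl
    · rintro rfl
      rfl
  simp only [hone] at key
  exact ⟨fun h => key.1 (hpow M h), fun h => key.2 (hpow 2 h)⟩

/-- shift -/
theorem Negl.shift {S : ℕ → Prop} (h : Negl S) (c : ℕ) : Negl (fun k => c ≤ k ∧ S (k - c)) := by
  intro ε hε
  filter_upwards [h ε hε] with X hX
  refine le_trans ?_ hX
  rw [Nat.cast_le]
  have hfin : {n : ℕ | n ≤ X ∧ S n}.Finite := (Set.finite_Iic X).subset (fun n hn => hn.1)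
  have hinj : Set.InjOn (fun k => k - c) {k : ℕ | k ≤ X ∧ (c ≤ k ∧ S (k - c))} := by
    rintro a ⟨-, ha, -⟩ b ⟨-, hb, -⟩ hab
    simp only at hab
    omega
  rw [← Set.ncard_image_of_injOn hinj]
  apply Set.ncard_le_ncard _ hfin
  rintro n ⟨k, ⟨hk1, -, hk3⟩, rfl⟩
  exact ⟨(Nat.sub_le _ _).trans hk1, hk3⟩

end Pool.Agent.TH905.PC
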