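import Mathlib
import Pool.Agent.TH905.PC.Dsg
import Pool.Agent.H634R3.AA.Asm
import Pool.Agent.H634R3.AA.Pell
import Pool.Agent.H634R3.AA.TailSmall

set_option autoImplicit false

/-!
# Symmetric designs on almost all numbers of points
-/

namespace Pool.Agent.TH905.PC

open Finset MulAction Pool.Agent.H634R3.PPC Filter Topology Pool.Agent.H951R4.OD

/-- link between the order `n` of the design and the number `n'` -/
structure Lk (M M' n n' la : ℕ) : Prop where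
  dvd : M ∣ M'
  ne : M' ≠ 0
  ar : ArOK M' n'
  ex : ∀ p : ℕ, p.Prime → ¬ p ∣ M' → p ∣ n' → ¬ p ^ 2 ∣ n' → p ∣ n ∧ ¬ p ^ 2 ∣ n
  la : ∀ p : ℕ, p.Prime → ¬ p ∣ M' → p ∣ n' → ¬ p ^ 2 ∣ n' →
    ¬ p ∣ la ∧ IsSquare (((-(la : ℤ) : ℤ)) : ZMod p)

theorem not_dvd_of_succ {M p : ℕ} (hp : p.Prime) (hpM : M ∣ p + 1) : ¬ p ∣ M := by
  intro h
  have h1 : p ∣ p + 1 := h.trans hpM
  have h2 : p ∣ 1 := (Nat.dvd_add_right dvd_rfl).1 h1
  exact hp.one_lt.ne' (Nat.dvd_one.1 h2)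

section gen

variable {G : Type} [Group G] [Finite G] {P L : Type} [Fintype P] [Fintype L] [MulAction G P]
  [MulAction G L] {inc : P → L → Prop}

/-- nontrivial characters -/
theorem pts_even (hinc : ∀ (g : G) (p : P) (l : L), inc (g • p) (g • l) ↔ inc p l)
    {n la : ℕ} (D : Des inc n la) {M M' n' : ℕ} (hM : M ≠ 0)
    (hG : PG M G) (hn : Lk M M' n n' la) {χ : G →* ℂˣ} (hχ : χ ≠ 1) (hχM : χ ^ M = 1) :
    Even (Fintype.card (Od χ.ker P)) := by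
  obtain ⟨⟨p, hp, hpM, h1, h2⟩, -⟩ := hn.ar
  have hpM2 := not_dvd_of_succ hp hpM
  have hpM' : ¬ p ∣ M := fun h => hpM2 (h.trans hn.dvd)
  obtain ⟨h3, h4⟩ := hn.ex p hp hpM2 h1 h2
  obtain ⟨u, hu, hN⟩ := exact_dvd h3 h4
  exact even_mult hinc D hM χ hχ
    (fun g => by simpa using congrArg (fun f : G →* ℂˣ => f g) hχM) hp (hn.dvd.trans hpM)
    (not_dvd_sz hG hp hpM') (not_dvd_sz hG hp hpM') odd_one hu hN

/-- real nontrivial characters -/
theorem pts_four (hinc : ∀ (g : G) (p : P) (l : L), inc (g • p) (g • l) ↔ inc p l)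
    {n la : ℕ} (D : Des inc n la) {M M' n' : ℕ}
    (hG : PG M G) (hn : Lk M M' n n' la) {χ : G →* ℂˣ} (hχ : χ ≠ 1)
    (hχ2 : χ ^ 2 = 1) :
    4 ∣ Fintype.card (Od χ.ker P) ∧ IsSquare (∏ C : Od χ.ker P, sz C.1) := by
  obtain ⟨χ', hk⟩ := real_char χ hχ2
  have hχ' : χ' ≠ 1 := by
    intro h
    apply hχ
    rw [← MonoidHom.ker_eq_top_iff] at h ⊢
    rw [← hk, h]
  rw [← hk]
  have key : ∀ p : ℕ, p.Prime → ¬ p ∣ M' → p ∣ n' → ¬ p ^ 2 ∣ n' →
      ∃ t, Fintype.card (Od χ'.ker P) = 2 * t ∧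
      IsSquare ((-1) ^ t * (((∏ C : Od χ'.ker P, (sz C.1 : ℤ) : ℤ)) : ZMod p)) := by
    intro p hp hpM2 h1 h2
    have hpM : ¬ p ∣ M := fun h => hpM2 (h.trans hn.dvd)
    obtain ⟨h3, h4⟩ := hn.ex p hp hpM2 h1 h2
    obtain ⟨u, hu, hN⟩ := exact_dvd h3 h4
    exact quad_nontriv hinc D hχ' hp
      (not_dvd_sz hG hp hpM) (not_dvd_sz hG hp hpM) odd_one hu hN
  obtain ⟨p0, hp0, hpM0, h10, h20⟩ := hn.ar.1
  obtain ⟨t, ht, -⟩ := key p0 hp0 (not_dvd_of_succ hp0 hpM0) h10 h20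
  have h3 := square_of hn.ar (Q := ∏ C : Od χ'.ker P, sz C.1)
    (Finset.prod_ne_zero_iff.2 fun C _ => (sz_pos C.1).ne') (by
      intro q hq hqQ
      obtain ⟨C, -, hC⟩ := (Prime.dvd_finsetProd_iff (Nat.prime_iff.1 hq) _).1 hqQ
      exact (hG q hq (hC.trans (sz_dvd C.1))).trans hn.dvd) t (by
      intro p hp hpM h1 h2
      obtain ⟨t', ht', hs⟩ := key p hp hpM h1 h2
      have : t' = t := by omega
      subst this
      push_cast at hs ⊢
      exact hs)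
  obtain ⟨k, hk2⟩ := h3.1
  exact ⟨⟨k, by omega⟩, h3.2⟩

open Classical in
/-- the trivial character -/
theorem pts_one [Nonempty P] [Nonempty L]
    (hinc : ∀ (g : G) (p : P) (l : L), inc (g • p) (g • l) ↔ inc p l)
    {n la : ℕ} (D : Des inc n la) {M M' n' : ℕ}
    (hG : PG M G) (hn : Lk M M' n n' la) :
    Fintype.card (orbitRel.Quotient G P) % 4 = 3 ∧
      IsSquare (∏ C : orbitRel.Quotient G P, sz C) := by
  have key : ∀ p : ℕ, p.Prime → ¬ p ∣ M' → p ∣ n' → ¬ p ^ 2 ∣ n' →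
      ∃ t, Fintype.card (orbitRel.Quotient G P) + 1 = 2 * t ∧
      IsSquare ((-1) ^ t * (((∏ C : orbitRel.Quotient G P, (sz C : ℤ)) * -(la : ℤ) : ℤ) :
        ZMod p)) := by
    intro p hp hpM2 h1 h2
    have hpM : ¬ p ∣ M := fun h => hpM2 (h.trans hn.dvd)
    obtain ⟨h3, h4⟩ := hn.ex p hp hpM2 h1 h2
    obtain ⟨u, hu, hN⟩ := exact_dvd h3 h4
    exact quad_triv hinc D hp (hn.la p hp hpM2 h1 h2).1
      (not_dvd_sz hG hp hpM) (not_dvd_sz hG hp hpM) odd_one hu hN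
  obtain ⟨p0, hp0, hpM0, h10, h20⟩ := hn.ar.1
  obtain ⟨t, ht, -⟩ := key p0 hp0 (not_dvd_of_succ hp0 hpM0) h10 h20
  have h3 := square_of hn.ar (Q := ∏ C : orbitRel.Quotient G P, sz C)
    (Finset.prod_ne_zero_iff.2 fun C _ => (sz_pos C).ne') (by
      intro q hq hqQ
      obtain ⟨C, -, hC⟩ := (Prime.dvd_finsetProd_iff (Nat.prime_iff.1 hq) _).1 hqQ
      exact (hG q hq (hC.trans (sz_dvd C))).trans hn.dvd) t (by
      intro p hp hpM h1 h2
      obtain ⟨t', ht', hs⟩ := key p hp hpM h1 h2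
      have : t' = t := by omega
      subst this
      obtain ⟨hla1, ⟨y, hy⟩⟩ := hn.la p hp hpM h1 h2
      have hF : Fact p.Prime := ⟨hp⟩
      have hla0 : ((la : ℕ) : ZMod p) ≠ 0 := by
        rw [Ne, ZMod.natCast_eq_zero_iff]
        exact hla1
      obtain ⟨x, hx⟩ := hs
      push_cast at hx hy ⊢
      have hy0 : y ≠ 0 := by
        rintro rfl
        apply hla0
        rw [mul_zero, neg_eq_zero] at hy
        exact hy
      refine ⟨x / y, ?_⟩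
      rw [div_mul_div_comm, ← hx, ← hy]
      field_simp)
  obtain ⟨k, hk2⟩ := h3.1
  exact ⟨by omega, h3.2⟩

open Classical in
/-- **The statement for a single design.** -/
theorem pts_main [Nonempty P] [Nonempty L]
    (hinc : ∀ (g : G) (p : P) (l : L), inc (g • p) (g • l) ↔ inc p l)
    {n la : ℕ} (D : Des inc n la) {M M' n' : ℕ} (hM : M ≠ 0) (hG : PG M G)
    (hn : Lk M M' n n' la) (χ : G →* ℂˣ) :
    (χ ^ M = 1 → (orbs P χ.ker).ncard % 2 = (if χ = 1 then 1 else 0)) ∧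
      (χ ^ 2 = 1 → (orbs P χ.ker).ncard % 4 = (if χ = 1 then 3 else 0) ∧
        IsSquare (∏ᶠ O ∈ orbs P χ.ker, O.ncard)) := by
  rw [orbs_ncard, orbs_prod]
  by_cases hχ : χ = 1
  · subst hχ
    obtain ⟨h1, h2⟩ := pts_one hinc D hG hn
    have hgd : ∀ C : orbitRel.Quotient G P, Gd (1 : G →* ℂˣ).ker C := fun _ _ _ _ _ => rfl
    let e : Od (1 : G →* ℂˣ).ker P ≃ orbitRel.Quotient G P := Equiv.subtypeUnivEquiv hgd
    have h3 : Fintype.card (Od (1 : G →* ℂˣ).ker P) = Fintype.card (orbitRel.Quotient G P) :=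
      Fintype.card_congr e
    have h4 : ∏ C : Od (1 : G →* ℂˣ).ker P, sz C.1 = ∏ C : orbitRel.Quotient G P, sz C :=
      Fintype.prod_equiv e _ _ (fun _ => rfl)
    rw [if_pos rfl, if_pos rfl, h3, h4]
    exact ⟨fun _ => by omega, fun _ => ⟨h1, h2⟩⟩
  · rw [if_neg hχ, if_neg hχ]
    refine ⟨fun hχM => Nat.even_iff.1 (pts_even hinc D hM hG hn hχ hχM), fun hχ2 => ?_⟩
    obtain ⟨h1, h2⟩ := pts_four hinc D hG hn hχ hχ2
    exact ⟨Nat.dvd_iff_mod_eq_zero.1 h1, h2⟩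

end gen

/-- the orbits of `H` on the points whose stabilizers lie in the kernel of `χ` -/
def Orb {v : ℕ} (H : Subgroup (Equiv.Perm (Fin v))) (χ : H →* ℂˣ) : Set (Set (Fin v)) :=
  {O | ∃ x : Fin v, O = MulAction.orbit H x ∧ ∀ y ∈ O, ∀ h : H, h • y = y → χ h = 1}

open Classical in
/-- the conclusion -/
def Cn (M : ℕ) {v : ℕ} (H : Subgroup (Equiv.Perm (Fin v))) (χ : H →* ℂˣ) : Prop :=
  (χ ^ M = 1 → (Orb H χ).ncard % 2 = (if χ = 1 then 1 else 0)) ∧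
    (χ ^ 2 = 1 → (Orb H χ).ncard % 4 = (if χ = 1 then 3 else 0) ∧
      IsSquare (∏ᶠ O ∈ Orb H χ, O.ncard))

open Classical in
/-- **Symmetric designs.** -/
theorem pts_design {v k lam : ℕ} {B : Fin v → Finset (Fin v)} (hv : 2 ≤ v) (hlam : 1 ≤ lam)
    (hkv : k < v) (hk : ∀ i, (B i).card = k)
    (hp : ∀ x y : Fin v, x ≠ y →
      (Finset.univ.filter (fun i => x ∈ B i ∧ y ∈ B i)).card = lam)
    {H : Subgroup (Equiv.Perm (Fin v))} (haut : ∀ h ∈ H, ∀ i, ∃ j, (B i).image h = B j)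
    {M M' n' : ℕ} (hM : M ≠ 0) (hH : PG M H) (hn : Lk M M' (k - lam) n' lam) (χ : H →* ℂˣ) :
    Cn M H χ := by
  have hinj := blocks_inj hv hlam hkv hk hp
  have : Nonempty (Fin v) := ⟨⟨0, by omega⟩⟩
  have : Nonempty (Blk v) := ⟨⟨⟨0, by omega⟩⟩⟩
  have D := des_blk hv hlam hkv hk hp
  have hs := proj_surj hinj H haut
  have hPG : PG M (pairs B H) := by
    intro q hq h
    apply hH q hq
    rwa [← Nat.card_congr (Equiv.ofBijective _ ⟨proj_inj hinj H, hs⟩)]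
  have key := pts_main (G := pairs B H) (fun g x b => g.2.2 x b.i) D hM hPG hn
    (χ.comp (proj B H))
  rw [orbs_proj hs] at key
  have hpow : ∀ j : ℕ, χ ^ j = 1 → (χ.comp (proj B H)) ^ j = 1 := by
    intro j hj
    ext g
    have h1 := congrArg (fun f : H →* ℂˣ => f (proj B H g)) hj
    simp only [MonoidHom.pow_apply, MonoidHom.one_apply] at h1
    rw [MonoidHom.pow_apply, MonoidHom.comp_apply, h1]
    rfl
  have hone : χ.comp (proj B H) = 1 ↔ χ = 1 := by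
    constructor
    · intro h
      ext x
      obtain ⟨g, rfl⟩ := hs x
      have h1 := congrArg (fun f : pairs B H →* ℂˣ => f g) h
      simp only [MonoidHom.comp_apply] at h1
      rw [h1]
      rfl
    · rintro rfl
      rfl
  simp only [hone] at key
  exact ⟨fun h => key.1 (hpow M h), fun h => key.2 (hpow 2 h)⟩

/-! ### The families -/

open Pool.Agent.H634R3.AA

/-- a bad group and character -/
structure BD (M v k lam : ℕ) (B : Fin v → Finset (Fin v)) (H : Subgroup (Equiv.Perm (Fin v)))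
    (χ : H →* ℂˣ) : Prop where
  kv : k < v
  size : ∀ i, (B i).card = k
  pair : ∀ x y : Fin v, x ≠ y →
    (Finset.univ.filter (fun i => x ∈ B i ∧ y ∈ B i)).card = lam
  aut : ∀ h ∈ H, ∀ i, ∃ j, (B i).image h = B j
  pg : PG M H
  bad : ¬ Cn M H χ

/-- `v` points, type `(r, s)` -/
def FixB (M r s v : ℕ) : Prop :=
  ∃ (k lam : ℕ) (B : Fin v → Finset (Fin v)) (H : Subgroup (Equiv.Perm (Fin v))) (χ : H →* ℂˣ)
    (b c : ℕ), BD M v k lam B H χ ∧ 1 ≤ b ∧ 1 ≤ c ∧ k = r ^ 2 * b ∧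
      v = 1 + b * (r ^ 2 + s ^ 2) ∧ lam = r ^ 2 * c ∧ r ^ 2 * b = 1 + c * (r ^ 2 + s ^ 2)

theorem link {M r s b c : ℕ} (hM : M ≠ 0) (hr : 1 ≤ r) (hs : 1 ≤ s) (hcb : c < b)
    (hbc : r ^ 2 * b = 1 + c * (r ^ 2 + s ^ 2)) (har : ArOK (M * (r * s)) (b - c)) :
    Lk M (M * (r * s)) (r ^ 2 * b - r ^ 2 * c) (b - c) (r ^ 2 * c) := by
  have hnr : ∀ p : ℕ, ¬ p ∣ M * (r * s) → ¬ p ∣ r := fun p h h1 =>
    h (h1.trans ((dvd_mul_right r s).trans (dvd_mul_left _ M)))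
  have hns : ∀ p : ℕ, ¬ p ∣ M * (r * s) → ¬ p ∣ s := fun p h h1 =>
    h (h1.trans ((dvd_mul_left s r).trans (dvd_mul_left _ M)))
  refine ⟨dvd_mul_right _ _, mul_ne_zero hM (mul_ne_zero (by omega) (by omega)), har, ?_, ?_⟩
  · intro p hp hpM h1 h2
    have hcop : Nat.Coprime p (r ^ 2) := Nat.Coprime.pow_right 2
      ((Nat.Prime.coprime_iff_not_dvd hp).2 (hnr p hpM))
    rw [← Nat.mul_sub]
    refine ⟨h1.mul_left _, fun h => h2 ?_⟩
    exact (Nat.Coprime.pow_left 2 hcop).dvd_of_dvd_mul_left h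
  · intro p hp hpM h1 h2
    have hF : Fact p.Prime := ⟨hp⟩
    have hr0 : ((r : ℕ) : ZMod p) ≠ 0 := by
      rw [Ne, ZMod.natCast_eq_zero_iff]
      exact hnr p hpM
    have hs0 : ((s : ℕ) : ZMod p) ≠ 0 := by
      rw [Ne, ZMod.natCast_eq_zero_iff]
      exact hns p hpM
    have h3 : ((b : ℕ) : ZMod p) = (c : ℕ) := by
      have h4 : (((b - c : ℕ)) : ZMod p) = 0 := (ZMod.natCast_eq_zero_iff _ _).2 h1
      rw [Nat.cast_sub hcb.le, sub_eq_zero] at h4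
      exact h4
    have h4 : ((r : ℕ) : ZMod p) ^ 2 * (b : ℕ) = 1 + (c : ℕ) * ((r : ℕ) ^ 2 + (s : ℕ) ^ 2) := by
      exact_mod_cast congrArg (fun x : ℕ => (x : ZMod p)) hbc
    rw [h3] at h4
    have h5 : ((c : ℕ) : ZMod p) * (s : ℕ) ^ 2 = -1 := by linear_combination -h4
    have h6 : (((-((r ^ 2 * c : ℕ) : ℤ) : ℤ)) : ZMod p) = ((r : ℕ) / (s : ℕ)) * ((r : ℕ) / (s : ℕ)) := by
      push_cast
      rw [div_mul_div_comm, eq_div_iff (mul_ne_zero hs0 hs0)]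
      linear_combination (-((r : ℕ) : ZMod p) ^ 2) * h5
    refine ⟨fun h7 => ?_, ⟨_, h6⟩⟩
    have h8 : (((-((r ^ 2 * c : ℕ) : ℤ) : ℤ)) : ZMod p) = 0 := by
      have h9 : ((r ^ 2 * c : ℕ) : ZMod p) = 0 := (ZMod.natCast_eq_zero_iff _ _).2 h7
      rw [Int.cast_neg, Int.cast_natCast, h9, neg_zero]
    rw [h8] at h6
    exact (mul_ne_zero (div_ne_zero hr0 hs0) (div_ne_zero hr0 hs0)) h6.symm

theorem small_fixB {M r s : ℕ} (hM : M ≠ 0) (hr : 1 ≤ r) (hs : 1 ≤ s) : Small (FixB M r s) := by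
  classical
  intro ε hε
  obtain ⟨N0, hN0⟩ := (ar_negl (M * (r * s))
    (mul_ne_zero hM (mul_ne_zero (by omega) (by omega))) ε hε).exists_forall_of_atTop
  refine ⟨N0, fun N hN => le_trans ?_ (hN0 N hN)⟩
  rw [Nat.cast_le]
  have hfin : {n : ℕ | n ≤ N ∧ (1 ≤ n ∧ ¬ ArOK (M * (r * s)) n)}.Finite :=
    (Set.finite_Iic N).subset fun n hn => hn.1
  have hsub : {v : ℕ | v ≤ N ∧ FixB M r s v} ⊆
      (fun n : ℕ => (fr r s n / (s : ℤ) ^ 2).toNat) ''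
        {n : ℕ | n ≤ N ∧ (1 ≤ n ∧ ¬ ArOK (M * (r * s)) n)} := by
    rintro v ⟨hvN, k, lam, B, H, χ, b, c, hE, hb, hc, hkb, hvb, hlc, hbc⟩
    have hr2 : 1 ≤ r ^ 2 := Nat.one_le_pow _ _ hr
    have hs2 : 1 ≤ s ^ 2 := Nat.one_le_pow _ _ hs
    have hcb : c < b := by
      by_contra h
      push Not at h
      nlinarith
    have hkey : fr r s (b - c) = (v : ℤ) * (s : ℤ) ^ 2 := by
      unfold fr
      rw [Nat.cast_sub hcb.le, hvb]
      have h1 : (r : ℤ) ^ 2 * b = 1 + c * (r ^ 2 + s ^ 2) := by exact_mod_cast hbc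
      push_cast
      linear_combination (((r : ℤ) ^ 2 + (s : ℤ) ^ 2)) * h1
    have hv2 : 2 ≤ v := by
      rw [hvb]
      nlinarith
    have hl1 : 1 ≤ lam := by
      rw [hlc]
      nlinarith
    refine ⟨b - c, ⟨?_, by omega, fun har => hE.bad ?_⟩, ?_⟩
    · have : b ≤ v := by
        rw [hvb]
        nlinarith
      omega
    · have hl := link hM hr hs hcb hbc har
      rw [← hkb, ← hlc] at hl
      exact pts_design hv2 hl1 hE.kv hE.size hE.pair hE.aut hM hE.pg hl χ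
    · show (fr r s (b - c : ℕ) / (s : ℤ) ^ 2).toNat = v
      rw [hkey, Int.mul_ediv_cancel _ (by positivity)]
      simp
  exact (Set.ncard_le_ncard hsub (hfin.image _)).trans (Set.ncard_image_le hfin)

/-- `v` points carry a bad design -/
def HasB (M v : ℕ) : Prop :=
  ∃ (k lam : ℕ) (B : Fin v → Finset (Fin v)) (H : Subgroup (Equiv.Perm (Fin v))) (χ : H →* ℂˣ),
    2 ≤ k ∧ k + 2 ≤ v ∧ BD M v k lam B H χ

/-- the same with `k (v - 1 - k)` a square -/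
def HasSqB (M v : ℕ) : Prop :=
  ∃ (k lam : ℕ) (B : Fin v → Finset (Fin v)) (H : Subgroup (Equiv.Perm (Fin v))) (χ : H →* ℂˣ),
    2 ≤ k ∧ k + 2 ≤ v ∧ BD M v k lam B H χ ∧ IsSquare (k * (v - 1 - k))

theorem small_sqB {M : ℕ} (hM : M ≠ 0) : Small (HasSqB M) := by
  intro ε hε
  obtain ⟨D, N0, h0⟩ := TailBig.tailBig (ε / 3) (by positivity)
  obtain ⟨N1, h1⟩ := Pool.Agent.H634R3.AA.TailSmall.tailSmall Pool.Agent.H634R3.AA.Pell.pell (ε / 3) (by positivity)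
  have hF : Small (fun v => ∃ i ∈ Finset.Icc 1 D ×ˢ Finset.Icc 1 D, FixB M i.1 i.2 v) :=
    small_finset _ _ fun i hi => by
      rw [Finset.mem_product, Finset.mem_Icc, Finset.mem_Icc] at hi
      exact small_fixB hM hi.1.1 hi.2.1
  obtain ⟨N2, h2⟩ := hF (ε / 3) (by positivity)
  refine ⟨max N0 (max N1 N2), fun N hN => ?_⟩
  have e0 := h0 N (le_trans (le_max_left _ _) hN)
  have e1 := h1 N (le_trans (le_trans (le_max_left _ _) (le_max_right _ _)) hN)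
  have e2 := h2 N (le_trans (le_trans (le_max_right _ _) (le_max_right _ _)) hN)
  have hsub : {v : ℕ | v ≤ N ∧ HasSqB M v} ⊆
      ({v : ℕ | v ≤ N ∧ ∃ r s b c : ℕ, 1 ≤ r ∧ 1 ≤ s ∧ 1 ≤ b ∧ v = 1 + b * (r ^ 2 + s ^ 2) ∧
        r ^ 2 * b = 1 + c * (r ^ 2 + s ^ 2) ∧ D < r ^ 2 + s ^ 2 ∧ r ^ 2 + s ^ 2 ≤ b} ∪
      {v : ℕ | v ≤ N ∧ ∃ r s b c : ℕ, 1 ≤ r ∧ 1 ≤ s ∧ 1 ≤ b ∧ 1 ≤ c ∧
        v = 1 + b * (r ^ 2 + s ^ 2) ∧
        r ^ 2 * b = 1 + c * (r ^ 2 + s ^ 2) ∧ b < r ^ 2 + s ^ 2}) ∪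
      {v : ℕ | v ≤ N ∧ ∃ i ∈ Finset.Icc 1 D ×ˢ Finset.Icc 1 D, FixB M i.1 i.2 v} := by
    rintro v ⟨hvN, k, lam, B, H, χ, hk2, hkv, hT, hsq⟩
    have hlam := lam_pos hk2 hkv hT.size hT.pair
    obtain ⟨-, hcount⟩ := repl v k lam (by omega) hlam B hT.size hT.pair
    have h3 : lam * (v - 1) = k * (k - 1) := by
      have h6 : k * (k - 1) + k = k * k := by
        obtain ⟨m, hm⟩ : ∃ m, k = m + 1 := ⟨k - 1, by omega⟩
        rw [hm, Nat.add_sub_cancel]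
        ring
      linarith
    obtain ⟨r, s, b, c, hr, hs, hb, hc, hkb, hvb, hlc, hbc⟩ :=
      Param.param v k lam hk2 hkv h3 hsq
    by_cases hD : r ^ 2 + s ^ 2 ≤ D
    · right
      refine ⟨hvN, (r, s), ?_, k, lam, B, H, χ, b, c, hT, hb, hc, hkb, hvb, hlc, hbc⟩
      rw [Finset.mem_product, Finset.mem_Icc, Finset.mem_Icc]
      have hr2 : r ≤ r ^ 2 := Nat.le_self_pow (by norm_num) r
      have hs2 : s ≤ s ^ 2 := Nat.le_self_pow (by norm_num) s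
      exact ⟨⟨hr, by show r ≤ D; omega⟩, ⟨hs, by show s ≤ D; omega⟩⟩
    · left
      push Not at hD
      rcases le_or_gt (r ^ 2 + s ^ 2) b with h | h
      · left
        exact ⟨hvN, r, s, b, c, hr, hs, hb, hvb, hbc, hD, h⟩
      · right
        exact ⟨hvN, r, s, b, c, hr, hs, hb, hc, hvb, hbc, h⟩
  have h3 := Set.ncard_le_ncard hsub (((fin_le N _).union (fin_le N _)).union (fin_le N _))
  have h4 : ({v : ℕ | v ≤ N ∧ HasSqB M v}.ncard : ℝ) ≤ _ :=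
    (Nat.cast_le (α := ℝ)).2 (h3.trans ((Set.ncard_union_le _ _).trans
      (Nat.add_le_add_right (Set.ncard_union_le _ _) _)))
  push_cast at h4
  linarith

theorem exc_orB {M v : ℕ} (h : HasB M v) : Pool.Agent.H177R2.SD.Exc v ∨ HasSqB M v := by
  classical
  obtain ⟨k, lam, B, H, χ, hk2, hkv, hT⟩ := h
  have hlam := lam_pos hk2 hkv hT.size hT.pair
  obtain ⟨hrep, hcount⟩ := repl v k lam (by omega) hlam B hT.size hT.pair
  by_cases hE : v % 4 = 3 ∧ (IsSquare (k * (v - 1 - k)) ∨ IsSquare ((k - 1) * (v - k)))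
  · right
    obtain ⟨h3, h4⟩ := hE
    rcases h4 with h4 | h4
    · exact ⟨k, lam, B, H, χ, hk2, hkv, hT, h4⟩
    · obtain ⟨c1, c2, c3⟩ := Comp.comp B (by omega) hT.kv hT.size hrep hT.pair H hT.aut
      refine ⟨v - k, v + lam - 2 * k, fun i => (B i)ᶜ, H, χ, by omega, by omega,
        ⟨by omega, c1, c2, c3, hT.pg, hT.bad⟩, ?_⟩
      have h5 : (v - k) * (v - 1 - (v - k)) = (k - 1) * (v - k) := by
        have h6 : v - 1 - (v - k) = k - 1 := by omega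
        rw [h6, mul_comm]
      rw [h5]
      exact h4
  · left
    refine ⟨k, lam, hk2, hkv, ⟨hT.kv, k, B, hT.size, ?_, ?_⟩, hE⟩
    · intro x
      convert hrep x
    · intro x y hxy
      convert hT.pair x y hxy

theorem small_B {M : ℕ} (hM : M ≠ 0) : Small (HasB M) :=
  (small_exc.or (small_sqB hM)).mono fun _ h => exc_orB h

end Pool.Agent.TH905.PC
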